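import Pool.Agent.HP42.MC.Defs

/-!
Products of linear forms in a ring where `X Z (X - Z) = 0`, and the relations between the variables
given by a moment-curve system.
-/

set_option autoImplicit false

namespace Pool.Agent.HP42.MC

open MvPolynomial

section ring

variable {K A : Type} [Field K] [CommRing A] [Algebra K A]

theorem mixed {X Z : A} (h : X * Z * (X - Z) = 0) (m : ℕ) : X ^ (m + 1) * Z = X * Z ^ (m + 1) := by
  induction m with
  | zero => simp
  | succ m ih =>
    have e : X ^ (m + 1 + 1) * Z = X * (X ^ (m + 1) * Z) := by ring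
    rw [e, ih]
    have e2 : X * (X * Z ^ (m + 1)) - X * Z ^ (m + 1 + 1) = (X * Z * (X - Z)) * Z ^ m := by ring
    rw [h, zero_mul] at e2
    exact sub_eq_zero.1 e2

theorem mixed' {X Z : A} (h : X * Z * (X - Z) = 0) (m : ℕ) :
    X ^ 2 * Z ^ (m + 1) = X * Z ^ (m + 2) := by
  have e2 : X ^ 2 * Z ^ (m + 1) - X * Z ^ (m + 2) = (X * Z * (X - Z)) * Z ^ m := by ring
  rw [h, zero_mul] at e2
  exact sub_eq_zero.1 e2

theorem prod_X {V : Type} [DecidableEq V] {X Z : A} (h : X * Z * (X - Z) = 0) (ρ : V → K)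
    (U : Finset V) : X * ∏ v ∈ U, (X - ρ v • Z) =
      X ^ (U.card + 1) + ((∏ v ∈ U, (1 - ρ v)) - 1) • (X * Z ^ U.card) := by
  induction U using Finset.induction_on with
  | empty => simp
  | insert v U hv ih =>
    rw [Finset.prod_insert hv, Finset.prod_insert hv, Finset.card_insert_of_notMem hv]
    have e1 : X * ((X - ρ v • Z) * ∏ x ∈ U, (X - ρ x • Z)) =
        (X - ρ v • Z) * (X * ∏ x ∈ U, (X - ρ x • Z)) := by ring
    rw [e1, ih]
    set a := ∏ x ∈ U, (1 - ρ x) with ha
    have e3 : X ^ (U.card + 1) * Z = X * Z ^ (U.card + 1) := mixed h _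
    have e4 : (a - 1) • (X ^ 2 * Z ^ U.card) = (a - 1) • (X * Z ^ (U.card + 1)) := by
      rcases Nat.eq_zero_or_pos U.card with h0 | h0
      · have : U = ∅ := Finset.card_eq_zero.1 h0
        have : a = 1 := by rw [ha, this]; simp
        rw [this]; simp
      · obtain ⟨m, hm⟩ := Nat.exists_eq_succ_of_ne_zero h0.ne'
        rw [hm]
        congr 1
        exact mixed' h m
    have e5 : (X - ρ v • Z) * (X ^ (U.card + 1) + (a - 1) • (X * Z ^ U.card)) =
        X ^ (U.card + 1 + 1) - ρ v • (X ^ (U.card + 1) * Z) + (a - 1) • (X ^ 2 * Z ^ U.card)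
          - (ρ v * (a - 1)) • (X * Z ^ (U.card + 1)) := by
      simp only [Algebra.smul_def, map_mul, map_sub, map_one]
      ring
    rw [e5, e4, e3]
    simp only [Algebra.smul_def, map_mul, map_sub, map_one]
    ring

theorem prod_Z {V : Type} [DecidableEq V] {X Z : A} (h : X * Z * (X - Z) = 0) (ρ : V → K)
    (U : Finset V) : Z * ∏ v ∈ U, (X - ρ v • Z) =
      (∏ v ∈ U, (- ρ v)) • Z ^ (U.card + 1) +
        ((∏ v ∈ U, (1 - ρ v)) - ∏ v ∈ U, (- ρ v)) • (X * Z ^ U.card) := by
  induction U using Finset.induction_on with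
  | empty => simp
  | insert v U hv ih =>
    rw [Finset.prod_insert hv, Finset.prod_insert hv, Finset.prod_insert hv,
      Finset.card_insert_of_notMem hv]
    have e1 : Z * ((X - ρ v • Z) * ∏ x ∈ U, (X - ρ x • Z)) =
        (X - ρ v • Z) * (Z * ∏ x ∈ U, (X - ρ x • Z)) := by ring
    rw [e1, ih]
    set a := ∏ x ∈ U, (1 - ρ x) with ha
    set b := ∏ x ∈ U, (- ρ x) with hb
    have e4 : (a - b) • (X ^ 2 * Z ^ U.card) = (a - b) • (X * Z ^ (U.card + 1)) := by
      rcases Nat.eq_zero_or_pos U.card with h0 | h0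
      · have h1 : U = ∅ := Finset.card_eq_zero.1 h0
        have h2 : a = 1 := by rw [ha, h1]; simp
        have h3 : b = 1 := by rw [hb, h1]; simp
        rw [h2, h3]; simp
      · obtain ⟨m, hm⟩ := Nat.exists_eq_succ_of_ne_zero h0.ne'
        rw [hm]
        congr 1
        exact mixed' h m
    have e5 : (X - ρ v • Z) * (b • Z ^ (U.card + 1) + (a - b) • (X * Z ^ U.card)) =
        b • (X * Z ^ (U.card + 1)) - (ρ v * b) • Z ^ (U.card + 1 + 1)
          + (a - b) • (X ^ 2 * Z ^ U.card)
          - (ρ v * (a - b)) • (X * Z ^ (U.card + 1)) := by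
      simp only [Algebra.smul_def, map_mul, map_sub]
      ring
    rw [e5, e4]
    simp only [Algebra.smul_def, map_mul, map_sub, map_one, map_neg]
    ring

theorem powers_zero {V : Type} [DecidableEq V] {X Z : A} (h : X * Z * (X - Z) = 0) (ρ : V → K)
    (U : Finset V) (hU : ∏ v ∈ U, (X - ρ v • Z) = 0) (h1 : ∏ v ∈ U, (1 - ρ v) = 1)
    (h0 : ∏ v ∈ U, (- ρ v) = 1) : X ^ (U.card + 1) = 0 ∧ Z ^ (U.card + 1) = 0 := by
  have e1 := prod_X h ρ U
  have e2 := prod_Z h ρ U
  rw [hU, h1] at e1
  rw [hU, h1, h0] at e2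
  constructor
  · simpa using e1.symm
  · simpa using e2.symm

end ring

section theta

variable {K A : Type} [Field K] [CommRing A] [Algebra K A]

/-- The relations of degree at most `d` without constant term. -/
theorem relation {V : Type} [Fintype V] (d : ℕ) (t : V → K) (x : V → A)
    (hx : ∀ j : Fin d, ∑ v, t v ^ (j.val + 1) • x v = 0) (P : Polynomial K)
    (hP : P.natDegree ≤ d) (h0 : P.coeff 0 = 0) : ∑ v, P.eval (t v) • x v = 0 := by
  have e : ∀ v, P.eval (t v) • x v =
      ∑ j ∈ Finset.range (d + 1), P.coeff j • (t v ^ j • x v) := by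
    intro v
    rw [Polynomial.eval_eq_sum_range' (Nat.lt_succ_of_le hP), Finset.sum_smul]
    exact Finset.sum_congr rfl fun j _ => by rw [smul_smul]
  simp only [e]
  rw [Finset.sum_comm]
  apply Finset.sum_eq_zero
  intro j hj
  rw [← Finset.smul_sum]
  rcases Nat.eq_zero_or_pos j with rfl | hj0
  · rw [h0, zero_smul]
  · obtain ⟨i, rfl⟩ := Nat.exists_eq_succ_of_ne_zero hj0.ne'
    have := hx ⟨i, by have := Finset.mem_range.1 hj; omega⟩
    simp only at this
    rw [Nat.succ_eq_add_one, this, smul_zero]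

/-- Three-term relation. -/
theorem three_term {V : Type} [Fintype V] [DecidableEq V] (d : ℕ) (hV : Fintype.card V = d + 2)
    (t : V → K) (x : V → A)
    (hx : ∀ j : Fin d, ∑ v, t v ^ (j.val + 1) • x v = 0) (a b v : V) (hab : a ≠ b) :
    (t a - t b) • ((t v * ∏ u ∈ Finset.univ.erase v, (t v - t u)) • x v) =
      (t v - t b) • ((t a * ∏ u ∈ Finset.univ.erase a, (t a - t u)) • x a) -
        (t v - t a) • ((t b * ∏ u ∈ Finset.univ.erase b, (t b - t u)) • x b) := by
  by_cases hva : v = a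
  · subst hva; simp
  by_cases hvb : v = b
  · subst hvb
    simp only [sub_self, zero_smul, zero_sub]
    rw [← neg_smul, neg_sub]
  set T : Finset V := ((Finset.univ.erase v).erase a).erase b with hT
  have hTc : T.card + 3 = d + 2 := by
    rw [hT, Finset.card_erase_of_mem, Finset.card_erase_of_mem, Finset.card_erase_of_mem,
      Finset.card_univ, hV]
    · have : 3 ≤ d + 2 := by
        rw [← hV, ← Finset.card_univ]
        have h3 : ({v, a, b} : Finset V).card = 3 := by
          rw [Finset.card_insert_of_notMem, Finset.card_insert_of_notMem, Finset.card_singleton]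
          · simpa using hab
          · simp [hva, hvb]
        rw [← h3]
        exact Finset.card_le_card (Finset.subset_univ _)
      omega
    · exact Finset.mem_univ _
    · exact Finset.mem_erase.2 ⟨Ne.symm hva, Finset.mem_univ _⟩
    · exact Finset.mem_erase.2 ⟨Ne.symm hab, Finset.mem_erase.2 ⟨Ne.symm hvb, Finset.mem_univ _⟩⟩
  set P : Polynomial K := Polynomial.X * ∏ u ∈ T, (Polynomial.X - Polynomial.C (t u)) with hP
  have hdeg : P.natDegree ≤ d := by
    refine (Polynomial.natDegree_mul_le).trans ?_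
    rw [Polynomial.natDegree_X, Polynomial.natDegree_finsetProd_X_sub_C_eq_card]
    omega
  have hc0 : P.coeff 0 = 0 := by rw [hP, Polynomial.mul_coeff_zero]; simp
  have hrel := relation d t x hx P hdeg hc0
  have hev : ∀ w, P.eval (t w) = t w * ∏ u ∈ T, (t w - t u) := by
    intro w
    rw [hP, Polynomial.eval_mul, Polynomial.eval_X, Polynomial.eval_prod]
    simp
  have hsplit : ∑ w, P.eval (t w) • x w =
      P.eval (t v) • x v + (P.eval (t a) • x a + P.eval (t b) • x b) := by
    rw [← Finset.add_sum_erase _ _ (Finset.mem_univ v),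
      ← Finset.add_sum_erase _ _ (Finset.mem_erase.2 ⟨Ne.symm hva, Finset.mem_univ a⟩),
      ← Finset.add_sum_erase _ _ (Finset.mem_erase.2 ⟨Ne.symm hab,
        Finset.mem_erase.2 ⟨Ne.symm hvb, Finset.mem_univ b⟩⟩)]
    rw [← hT]
    rw [Finset.sum_eq_zero (s := T), add_zero]
    intro w hw
    rw [hev, Finset.prod_eq_zero hw (sub_self _), mul_zero, zero_smul]
  rw [hsplit, hev, hev, hev] at hrel
  have pv : ∏ u ∈ Finset.univ.erase v, (t v - t u) =
      (t v - t a) * ((t v - t b) * ∏ u ∈ T, (t v - t u)) := by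
    rw [← Finset.mul_prod_erase _ _ (Finset.mem_erase.2 ⟨Ne.symm hva, Finset.mem_univ a⟩),
      ← Finset.mul_prod_erase _ _ (Finset.mem_erase.2 ⟨Ne.symm hab,
        Finset.mem_erase.2 ⟨Ne.symm hvb, Finset.mem_univ b⟩⟩)]
  have pa : ∏ u ∈ Finset.univ.erase a, (t a - t u) =
      (t a - t v) * ((t a - t b) * ∏ u ∈ T, (t a - t u)) := by
    rw [← Finset.mul_prod_erase _ _ (Finset.mem_erase.2 ⟨hva, Finset.mem_univ v⟩),
      ← Finset.mul_prod_erase _ _ (Finset.mem_erase.2 ⟨Ne.symm hvb,
        Finset.mem_erase.2 ⟨Ne.symm hab, Finset.mem_univ b⟩⟩)]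
    congr 3
    rw [hT]
    ext y
    simp only [Finset.mem_erase, Finset.mem_univ]
    tauto
  have pb : ∏ u ∈ Finset.univ.erase b, (t b - t u) =
      (t b - t v) * ((t b - t a) * ∏ u ∈ T, (t b - t u)) := by
    rw [← Finset.mul_prod_erase _ _ (Finset.mem_erase.2 ⟨hvb, Finset.mem_univ v⟩),
      ← Finset.mul_prod_erase _ _ (Finset.mem_erase.2 ⟨Ne.symm hva,
        Finset.mem_erase.2 ⟨hab, Finset.mem_univ a⟩⟩)]
    congr 3
    rw [hT]
    ext y
    simp only [Finset.mem_erase, Finset.mem_univ]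
    tauto
  rw [pv, pa, pb]
  set qv := ∏ u ∈ T, (t v - t u)
  set qa := ∏ u ∈ T, (t a - t u)
  set qb := ∏ u ∈ T, (t b - t u)
  have key : (t a - t b) • ((t v * ((t v - t a) * ((t v - t b) * qv))) • x v) -
      ((t v - t b) • ((t a * ((t a - t v) * ((t a - t b) * qa))) • x a) -
        (t v - t a) • ((t b * ((t b - t v) * ((t b - t a) * qb))) • x b)) =
      ((t a - t b) * (t v - t a) * (t v - t b)) •
        ((t v * qv) • x v + ((t a * qa) • x a + (t b * qb) • x b)) := by
    simp only [Algebra.smul_def, map_mul, map_sub]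
    ring
  rw [hrel, smul_zero] at key
  exact sub_eq_zero.1 key

end theta

end Pool.Agent.HP42.MC
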