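import Pool.Agent.HP42.MC.Defs

set_option autoImplicit false

namespace Pool.Agent.HP42.MC

variable {K : Type} [Field K]

/-- A set of `b` elements outside `E` with both products equal to `ε`. -/
def Blk (b : ℕ) (ε : K) (E : Finset K) : Prop :=
  ∃ B : Finset K, B.card = b ∧ Disjoint B E ∧ ∏ x ∈ B, x = ε ∧ ∏ x ∈ B, (1 - x) = ε

theorem blk_mul {b : ℕ} {ε : K} (h : ∀ E, Blk b ε E) (m : ℕ) (E : Finset K) :
    Blk (b * m) (ε ^ m) E := by
  classical
  induction m with
  | zero => exact ⟨∅, by simp, by simp, by simp, by simp⟩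
  | succ m ih =>
    obtain ⟨B, h1, h2, h3, h4⟩ := ih
    obtain ⟨B', g1, g2, g3, g4⟩ := h (E ∪ B)
    rw [Finset.disjoint_union_right] at g2
    refine ⟨B ∪ B', ?_, ?_, ?_, ?_⟩
    · rw [Finset.card_union_of_disjoint g2.2.symm, h1, g1]; ring
    · rw [Finset.disjoint_union_left]; exact ⟨h2, g2.1⟩
    · rw [Finset.prod_union g2.2.symm, h3, g3]; ring
    · rw [Finset.prod_union g2.2.symm, h4, g4]; ring

theorem exists_ne_root [Infinite K] (P : Polynomial K) (hP : P ≠ 0) : ∃ s, P.eval s ≠ 0 := by
  by_contra h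
  push Not at h
  exact hP (Polynomial.funext (fun r => by rw [h r, Polynomial.eval_zero]))

theorem blk_three [Infinite K] (E : Finset K) : Blk 3 (-1 : K) E := by
  classical
  obtain ⟨r, hr⟩ := Infinite.exists_notMem_finset (E ∪ E.image (fun x => 1 - x⁻¹) ∪
    E.image (fun x => (1 - x)⁻¹) ∪ {0, 1} ∪
    (Polynomial.X ^ 2 - Polynomial.X + 1 : Polynomial K).roots.toFinset)
  simp only [Finset.mem_union, not_or, Finset.mem_insert, Finset.mem_singleton,
    Finset.mem_image, not_exists, not_and, Multiset.mem_toFinset] at hr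
  obtain ⟨⟨⟨⟨h1, h2⟩, h3⟩, h4, h5⟩, h6⟩ := hr
  have hP : (Polynomial.X ^ 2 - Polynomial.X + 1 : Polynomial K) ≠ 0 := by
    intro h
    have := congrArg (fun q => Polynomial.coeff q 0) h
    simp at this
  have h7 : r ^ 2 - r + 1 ≠ 0 := by
    intro h
    apply h6
    rw [Polynomial.mem_roots hP]
    simp [h]
  have h8 : 1 - r ≠ 0 := sub_ne_zero.2 (Ne.symm h5)
  have d1 : r ≠ (1 - r)⁻¹ := by
    intro h
    apply h7
    have : r * (1 - r) = 1 := by
      nth_rewrite 1 [h]
      exact inv_mul_cancel₀ h8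
    linear_combination -this
  have d2 : r ≠ 1 - r⁻¹ := by
    intro h
    apply h7
    have : r * r = r * (1 - r⁻¹) := by rw [← h]
    rw [mul_sub, mul_inv_cancel₀ h4, mul_one] at this
    linear_combination this
  have d3 : (1 - r)⁻¹ ≠ 1 - r⁻¹ := by
    intro h
    apply h7
    have : r * (1 - r) * (1 - r)⁻¹ = r * (1 - r) * (1 - r⁻¹) := by rw [h]
    rw [mul_assoc, mul_inv_cancel₀ h8] at this
    have h9 : r * (1 - r) * (1 - r⁻¹) = (1 - r) * (r - r * r⁻¹) := by ring
    rw [h9, mul_inv_cancel₀ h4] at this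
    linear_combination this
  refine ⟨{r, (1 - r)⁻¹, 1 - r⁻¹}, ?_, ?_, ?_, ?_⟩
  · rw [Finset.card_insert_of_notMem, Finset.card_insert_of_notMem, Finset.card_singleton]
    · simpa using d3
    · simp only [Finset.mem_insert, Finset.mem_singleton, not_or]
      exact ⟨d1, d2⟩
  · rw [Finset.disjoint_left]
    intro x hx hxE
    simp only [Finset.mem_insert, Finset.mem_singleton] at hx
    rcases hx with rfl | rfl | rfl
    · exact h1 hxE
    · exact h2 _ hxE (by rw [inv_inv]; ring)
    · apply h3 _ hxE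
      have : 1 - (1 - r⁻¹) = r⁻¹ := by ring
      rw [this, inv_inv]
  · rw [Finset.prod_insert, Finset.prod_insert, Finset.prod_singleton]
    · field_simp
      ring
    · simpa using d3
    · simp only [Finset.mem_insert, Finset.mem_singleton, not_or]
      exact ⟨d1, d2⟩
  · rw [Finset.prod_insert, Finset.prod_insert, Finset.prod_singleton]
    · field_simp
      ring
    · simpa using d3
    · simp only [Finset.mem_insert, Finset.mem_singleton, not_or]
      exact ⟨d1, d2⟩

theorem blk_four [Infinite K] [CharP K 3] (E : Finset K) : Blk 4 (1 : K) E := by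
  classical
  have h3 : (3 : K) = 0 := by
    have := CharP.cast_eq_zero K 3
    simpa using this
  have h2 : (2 : K) ≠ 0 := by
    intro h
    have : (1 : K) = 0 := by linear_combination h3 - h
    exact one_ne_zero this
  set Q : K → Polynomial K := fun e =>
    ((1 + Polynomial.X ^ 2) - Polynomial.C (e + 1) * (1 - Polynomial.X ^ 2)) *
    (-(1 + Polynomial.X ^ 2) - Polynomial.C (e + 1) * (1 - Polynomial.X ^ 2)) *
    ((-(1 + Polynomial.X ^ 2) - Polynomial.C (e + 1) * Polynomial.X) *
    ((1 + Polynomial.X ^ 2) - Polynomial.C (e + 1) * Polynomial.X)) with hQ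
  have hQ0 : ∀ e, Q e ≠ 0 := by
    intro e
    rw [hQ]
    refine mul_ne_zero (mul_ne_zero ?_ ?_) (mul_ne_zero ?_ ?_)
    · intro h
      have a1 := congrArg (fun q => Polynomial.eval 1 q) h
      simp only [Polynomial.eval_mul, Polynomial.eval_X, Polynomial.eval_sub, Polynomial.eval_one,
        Polynomial.eval_pow, Polynomial.eval_add, Polynomial.eval_C, Polynomial.eval_zero] at a1
      apply h2
      linear_combination a1
    · intro h
      have a1 := congrArg (fun q => Polynomial.eval 1 q) h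
      simp only [Polynomial.eval_mul, Polynomial.eval_X, Polynomial.eval_sub, Polynomial.eval_one,
        Polynomial.eval_pow, Polynomial.eval_add, Polynomial.eval_neg, Polynomial.eval_C,
        Polynomial.eval_zero] at a1
      apply h2
      linear_combination -a1
    · intro h
      have a1 := congrArg (fun q => Polynomial.eval 0 q) h
      simp at a1
    · intro h
      have a1 := congrArg (fun q => Polynomial.eval 0 q) h
      simp at a1
  set P : Polynomial K := Polynomial.X * (1 - Polynomial.X ^ 2) * (1 + Polynomial.X ^ 2) *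
    (1 + Polynomial.X ^ 4) * ∏ e ∈ E, Q e with hP
  have hP0 : P ≠ 0 := by
    rw [hP]
    refine mul_ne_zero (mul_ne_zero (mul_ne_zero (mul_ne_zero Polynomial.X_ne_zero ?_) ?_) ?_)
      (Finset.prod_ne_zero_iff.2 fun e _ => hQ0 e)
    · intro h
      have a1 := congrArg (fun q => Polynomial.eval 0 q) h
      simp at a1
    · intro h
      have a1 := congrArg (fun q => Polynomial.eval 0 q) h
      simp at a1
    · intro h
      have a1 := congrArg (fun q => Polynomial.eval 0 q) h
      simp at a1
  obtain ⟨s, hs⟩ := exists_ne_root P hP0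
  rw [hP] at hs
  simp only [Polynomial.eval_mul, Polynomial.eval_X, Polynomial.eval_sub, Polynomial.eval_one,
    Polynomial.eval_pow, Polynomial.eval_add, Polynomial.eval_prod, ne_eq, mul_eq_zero,
    not_or] at hs
  obtain ⟨⟨⟨⟨s0, s1⟩, s2⟩, s4⟩, sE⟩ := hs
  rw [Finset.prod_eq_zero_iff] at sE
  push Not at sE
  have hE : ∀ e ∈ E, (1 + s ^ 2) - (e + 1) * (1 - s ^ 2) ≠ 0 ∧
      -(1 + s ^ 2) - (e + 1) * (1 - s ^ 2) ≠ 0 ∧ -(1 + s ^ 2) - (e + 1) * s ≠ 0 ∧
      (1 + s ^ 2) - (e + 1) * s ≠ 0 := by
    intro e he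
    have := sE e he
    rw [hQ] at this
    simp only [Polynomial.eval_mul, Polynomial.eval_X, Polynomial.eval_sub, Polynomial.eval_one,
      Polynomial.eval_pow, Polynomial.eval_add, Polynomial.eval_neg, Polynomial.eval_C, ne_eq,
      mul_eq_zero, not_or] at this
    exact ⟨this.1.1, this.1.2, this.2.1, this.2.2⟩
  set m : K := (1 + s ^ 2) / (1 - s ^ 2) with hm
  set n : K := -(1 + s ^ 2) / s with hn
  have hm1 : m * (1 - s ^ 2) = 1 + s ^ 2 := by rw [hm]; field_simp
  have hn1 : n * s = -(1 + s ^ 2) := by rw [hn]; field_simp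
  have hm0 : m ≠ 0 := by rw [hm]; exact div_ne_zero s2 s1
  have hn0 : n ≠ 0 := by rw [hn]; exact div_ne_zero (neg_ne_zero.2 s2) s0
  have hmn : m ^ 2 ≠ n ^ 2 := by
    intro h
    have e1 : (m * (1 - s ^ 2)) ^ 2 * s ^ 2 = (n * s) ^ 2 * (1 - s ^ 2) ^ 2 := by
      rw [mul_pow, mul_pow, h]; ring
    rw [hm1, hn1] at e1
    have e2 : (1 + s ^ 2) ^ 2 * (1 + s ^ 4) = 0 := by
      linear_combination -e1 + (1 + s ^ 2) ^ 2 * s ^ 2 * h3
    rcases mul_eq_zero.1 e2 with h | h
    · exact s2 (pow_eq_zero_iff (two_ne_zero) |>.1 h)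
    · exact s4 h
  have hprod : (1 - m ^ 2) * (1 - n ^ 2) = 1 := by
    have e1 : (1 - m ^ 2) * (1 - s ^ 2) ^ 2 = - s ^ 2 := by
      have : (1 - m ^ 2) * (1 - s ^ 2) ^ 2 = (1 - s ^ 2) ^ 2 - (m * (1 - s ^ 2)) ^ 2 := by ring
      rw [this, hm1]
      linear_combination -s ^ 2 * h3
    have e2 : (1 - n ^ 2) * s ^ 2 = - (1 - s ^ 2) ^ 2 := by
      have : (1 - n ^ 2) * s ^ 2 = s ^ 2 - (n * s) ^ 2 := by ring
      rw [this, hn1]
      linear_combination -s ^ 2 * h3
    have e3 : ((1 - m ^ 2) * (1 - n ^ 2) - 1) * ((1 - s ^ 2) ^ 2 * s ^ 2) = 0 := by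
      have : ((1 - m ^ 2) * (1 - n ^ 2) - 1) * ((1 - s ^ 2) ^ 2 * s ^ 2) =
        ((1 - m ^ 2) * (1 - s ^ 2) ^ 2) * ((1 - n ^ 2) * s ^ 2) - (1 - s ^ 2) ^ 2 * s ^ 2 := by ring
      rw [this, e1, e2]
      ring
    rcases mul_eq_zero.1 e3 with h | h
    · exact sub_eq_zero.1 h
    · exact absurd h (mul_ne_zero (pow_ne_zero _ s1) (pow_ne_zero _ s0))
  have d1 : m - 1 ≠ -m - 1 := by
    intro h
    exact (mul_ne_zero h2 hm0) (by linear_combination h)
  have d2 : n - 1 ≠ -n - 1 := by
    intro h
    exact (mul_ne_zero h2 hn0) (by linear_combination h)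
  have d3 : m - 1 ≠ n - 1 := fun h => hmn (by
    have : m = n := by linear_combination h
    rw [this])
  have d4 : m - 1 ≠ -n - 1 := fun h => hmn (by
    have : m = -n := by linear_combination h
    rw [this]; ring)
  have d5 : -m - 1 ≠ n - 1 := fun h => hmn (by
    have : m = -n := by linear_combination -h
    rw [this]; ring)
  have d6 : -m - 1 ≠ -n - 1 := fun h => hmn (by
    have : m = n := by linear_combination -h
    rw [this])
  have i1 : (m - 1) ∉ ({-m - 1, n - 1, -n - 1} : Finset K) := by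
    simp only [Finset.mem_insert, Finset.mem_singleton, not_or]
    exact ⟨d1, d3, d4⟩
  have i2 : (-m - 1) ∉ ({n - 1, -n - 1} : Finset K) := by
    simp only [Finset.mem_insert, Finset.mem_singleton, not_or]
    exact ⟨d5, d6⟩
  have i3 : (n - 1) ∉ ({-n - 1} : Finset K) := by
    simpa using d2
  refine ⟨{m - 1, -m - 1, n - 1, -n - 1}, ?_, ?_, ?_, ?_⟩
  · rw [Finset.card_insert_of_notMem i1, Finset.card_insert_of_notMem i2,
      Finset.card_insert_of_notMem i3, Finset.card_singleton]
  · rw [Finset.disjoint_left]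
    intro x hx hxE
    obtain ⟨f1, f2, f3, f4⟩ := hE x hxE
    simp only [Finset.mem_insert, Finset.mem_singleton] at hx
    rcases hx with rfl | rfl | rfl | rfl
    · exact f1 (by linear_combination -hm1)
    · exact f2 (by linear_combination hm1)
    · exact f3 (by linear_combination -hn1)
    · exact f4 (by linear_combination hn1)
  · rw [Finset.prod_insert i1, Finset.prod_insert i2, Finset.prod_insert i3,
      Finset.prod_singleton]
    linear_combination hprod
  · rw [Finset.prod_insert i1, Finset.prod_insert i2, Finset.prod_insert i3,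
      Finset.prod_singleton]
    linear_combination hprod + (5 - m ^ 2 - n ^ 2) * h3

/-- Over every infinite field of characteristic `p` there are `p ^ 2 - 1` elements outside any
finite set such that the products of the `x` and of the `1 - x` are `1`. -/
theorem exists_block [Infinite K] (p : ℕ) [hp : Fact p.Prime] [CharP K p] (E : Finset K) :
    Blk (p ^ 2 - 1) (1 : K) E := by
  classical
  by_cases h3 : p = 3
  · subst h3
    have := blk_mul (K := K) (b := 4) (ε := 1) blk_four 2 E
    simpa using this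
  · have hp2 := hp.out.two_le
    have hmod : (p ^ 2) % 3 = 1 := by
      have h1 : p % 3 ≠ 0 := by
        intro h
        have : 3 ∣ p := Nat.dvd_of_mod_eq_zero h
        exact h3 ((Nat.prime_dvd_prime_iff_eq Nat.prime_three hp.out).1 this).symm
      have h2 : p % 3 = 1 ∨ p % 3 = 2 := by omega
      rw [Nat.pow_mod]
      rcases h2 with h | h <;> rw [h]
    have hpos : 4 ≤ p ^ 2 := by nlinarith
    obtain ⟨m, hm⟩ : ∃ m, p ^ 2 - 1 = 3 * m := ⟨(p ^ 2 - 1) / 3, by omega⟩
    have hε : (-1 : K) ^ m = 1 := by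
      rcases hp.out.eq_two_or_odd' with h | h
      · have : (2 : K) = 0 := by
          have := CharP.cast_eq_zero K p
          rw [h] at this
          simpa using this
        have h1 : (-1 : K) = 1 := by linear_combination -this
        rw [h1, one_pow]
      · have h1 : Odd (p ^ 2) := h.pow
        have h2 : Even m := by
          obtain ⟨k, hk⟩ := h1
          rw [Nat.even_iff]
          omega
        exact h2.neg_one_pow
    have := blk_mul (K := K) (b := 3) (ε := -1) blk_three m E
    rw [hε, ← hm] at this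
    exact this

end Pool.Agent.HP42.MC
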