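import Pool.Agent.HP42.MC.Cyc2

set_option autoImplicit false

namespace Pool.Agent.HP42.MC

open MvPolynomial

variable {K : Type} [Field K] {V : Type} [Fintype V]

theorem coords (d r : ℕ) (hV : Fintype.card V = d + r) (t : V → K) :
    ∃ E : V → Fin r → K, (∀ (j : Fin d) (i : Fin r), ∑ v, t v ^ (j.val + 1) * E v i = 0) ∧
      ∀ y : Fin r → K, ∃ c : V → K, ∀ i, ∑ v, c v * E v i = y i := by
  classical
  set W : Submodule K (V → K) := Submodule.span K (Set.range fun j : Fin d => fun v : V =>
    t v ^ (j.val + 1)) with hW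
  have hWd : Module.finrank K W ≤ d := by
    have := finrank_range_le_card (R := K) (fun j : Fin d => fun v : V => t v ^ (j.val + 1))
    rw [Fintype.card_fin] at this
    exact this
  have hQ : r ≤ Module.finrank K ((V → K) ⧸ W) := by
    have h1 := Submodule.finrank_quotient_add_finrank W
    rw [Module.finrank_fintype_fun_eq_card, hV] at h1
    omega
  set b := Module.finBasis K ((V → K) ⧸ W)
  set L : ((V → K) ⧸ W) →ₗ[K] (Fin r → K) :=
    (LinearMap.funLeft K K (Fin.castLE hQ)).comp b.equivFun.toLinearMap with hL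
  have hLs : Function.Surjective L := by
    rw [hL, LinearMap.coe_comp]
    exact (LinearMap.funLeft_surjective_of_injective K K _ (Fin.castLE_injective hQ)).comp
      b.equivFun.surjective
  have hsum : ∀ (c : V → K) (i : Fin r), ∑ v, c v * L (W.mkQ (Pi.single v 1)) i =
      L (W.mkQ c) i := by
    intro c i
    have h1 : c = ∑ v, c v • (Pi.single v 1 : V → K) := by
      ext w
      rw [Finset.sum_apply]
      simp [Pi.single_apply]
    conv_rhs => rw [h1]
    rw [map_sum, map_sum, Finset.sum_apply]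
    apply Finset.sum_congr rfl
    intro v _
    rw [map_smul, map_smul, Pi.smul_apply, smul_eq_mul]
  refine ⟨fun v => L (W.mkQ (Pi.single v 1)), ?_, ?_⟩
  · intro j i
    rw [hsum (fun v => t v ^ (j.val + 1)) i]
    have : W.mkQ (fun v => t v ^ (j.val + 1)) = 0 := by
      rw [Submodule.mkQ_apply, Submodule.Quotient.mk_eq_zero]
      exact Submodule.subset_span ⟨j, rfl⟩
    rw [this, map_zero, Pi.zero_apply]
  · intro y
    obtain ⟨q, hq⟩ := hLs y
    obtain ⟨c, rfl⟩ := W.mkQ_surjective q
    exact ⟨c, fun i => by rw [hsum, hq]⟩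

/-- The substitution. -/
noncomputable def sub {r : ℕ} (E : V → Fin r → K) : MvPolynomial V K →ₐ[K] MvPolynomial (Fin r) K :=
  aeval (fun v => ∑ i, C (E v i) * X i)

omit [Fintype V] in
theorem sub_hom {r : ℕ} (E : V → Fin r → K) {k : ℕ} {f : MvPolynomial V K}
    (hf : f.IsHomogeneous k) : (sub E f).IsHomogeneous k := by
  have := hf.aeval (R := K) (fun v => ∑ i, C (E v i) * X i : V → MvPolynomial (Fin r) K) (n := 1)
    (fun v => IsHomogeneous.sum _ _ _ (fun i _ => isHomogeneous_C_mul_X _ _))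
  rw [one_mul] at this
  exact this

theorem sub_theta {d r : ℕ} {t : V → K} {E : V → Fin r → K}
    (hE : ∀ (j : Fin d) (i : Fin r), ∑ v, t v ^ (j.val + 1) * E v i = 0) (j : Fin d) :
    sub E (theta t (j.val + 1)) = 0 := by
  unfold theta sub
  rw [map_sum]
  have : ∀ v, (aeval (fun v => ∑ i, C (E v i) * X i : V → MvPolynomial (Fin r) K))
      (C (t v ^ (j.val + 1)) * X v : MvPolynomial V K) =
      ∑ i, C (t v ^ (j.val + 1) * E v i) * X i := by
    intro v
    rw [map_mul, aeval_X, aeval_C, algebraMap_eq, Finset.mul_sum]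
    apply Finset.sum_congr rfl
    intro i _
    rw [C_mul]
    ring
  simp only [this]
  rw [Finset.sum_comm]
  apply Finset.sum_eq_zero
  intro i _
  rw [← Finset.sum_mul, ← map_sum, hE j i, C_0, zero_mul]

/-- The functional from a functional on the polynomials in `r` variables which is zero outside of
degree `d`. -/
theorem kills_of {d r : ℕ} {t : V → K} {E : V → Fin r → K}
    (hE : ∀ (j : Fin d) (i : Fin r), ∑ v, t v ^ (j.val + 1) * E v i = 0)
    (Φ : MvPolynomial (Fin r) K →ₗ[K] K)
    (hΦ : ∀ k, k ≠ d → ∀ f : MvPolynomial (Fin r) K, f.IsHomogeneous k → Φ f = 0) :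
    Kills d t (Φ.comp (sub E).toLinearMap) where
  deg := by
    intro k hk f hf
    exact hΦ k hk _ (sub_hom E hf)
  theta := by
    intro j g
    change Φ (sub E (MC.theta t (j.val + 1) * g)) = 0
    rw [map_mul, sub_theta hE, zero_mul, map_zero]

theorem sub_lin {r : ℕ} {E : V → Fin r → K}
    (hs : ∀ y : Fin r → K, ∃ c : V → K, ∀ i, ∑ v, c v * E v i = y i) (y : Fin r → K) :
    ∃ f : MvPolynomial V K, f.IsHomogeneous 1 ∧ sub E f = ∑ i, C (y i) * X i := by
  obtain ⟨c, hc⟩ := hs y
  refine ⟨∑ v, C (c v) * X v, IsHomogeneous.sum _ _ _ (fun i _ => isHomogeneous_C_mul_X _ _), ?_⟩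
  unfold sub
  rw [map_sum]
  have : ∀ v, (aeval (fun v => ∑ i, C (E v i) * X i : V → MvPolynomial (Fin r) K))
      (C (c v) * X v : MvPolynomial V K) = ∑ i, C (c v * E v i) * X i := by
    intro v
    rw [map_mul, aeval_X, aeval_C, algebraMap_eq, Finset.mul_sum]
    apply Finset.sum_congr rfl
    intro i _
    rw [C_mul]
    ring
  simp only [this]
  rw [Finset.sum_comm]
  apply Finset.sum_congr rfl
  intro i _
  rw [← Finset.sum_mul, ← map_sum, hc i]

theorem sub_surj {r : ℕ} {E : V → Fin r → K}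
    (hs : ∀ y : Fin r → K, ∃ c : V → K, ∀ i, ∑ v, c v * E v i = y i) :
    Function.Surjective (sub E) := by
  classical
  rw [← AlgHom.range_eq_top, eq_top_iff, ← adjoin_range_X, Algebra.adjoin_le_iff]
  rintro _ ⟨i, rfl⟩
  obtain ⟨f, -, hf⟩ := sub_lin hs (Pi.single i 1)
  refine ⟨f, ?_⟩
  change sub E f = X i
  rw [hf, Finset.sum_eq_single i]
  · simp
  · intro j _ hj
    rw [Pi.single_eq_of_ne hj, C_0, zero_mul]
  · intro h
    exact absurd (Finset.mem_univ i) h

omit [Fintype V] in
/-- The image of a linear form is a linear form. -/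
theorem sub_lin' {r : ℕ} (E : V → Fin r → K) {l : MvPolynomial V K} (hl : l.IsHomogeneous 1) :
    ∃ y : Fin r → K, sub E l = ∑ i, C (y i) * X i := by
  have h1 := sub_hom E hl
  have h2 : sub E l ∈ homogeneousSubmodule (Fin r) K 1 := h1
  rw [homogeneousSubmodule_one_eq_span_X] at h2
  obtain ⟨y, hy⟩ := (Submodule.mem_span_range_iff_exists_fun K).1 h2
  refine ⟨y, ?_⟩
  rw [← hy]
  apply Finset.sum_congr rfl
  intro i _
  rw [smul_eq_C_mul]

end Pool.Agent.HP42.MC
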