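import Pool.Agent.HP42.MC.Vol
import Pool.Agent.HP42.MC.Alg

set_option autoImplicit false

namespace Pool.Agent.HP42.MC

open MvPolynomial

variable {K : Type} [Field K] {V : Type} [Fintype V]

/-- The functionals which are zero outside of degree `d` and on the multiples of the system of
parameters. -/
structure Kills (d : ℕ) (t : V → K) (φ : MvPolynomial V K →ₗ[K] K) : Prop where
  deg : ∀ k, k ≠ d → ∀ f : MvPolynomial V K, f.IsHomogeneous k → φ f = 0
  theta : ∀ (j : Fin d) (g : MvPolynomial V K), φ (theta t (j.val + 1) * g) = 0

theorem kills_relation {d : ℕ} {t : V → K} {φ : MvPolynomial V K →ₗ[K] K} (h : Kills d t φ)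
    (g : MvPolynomial V K) (P : Polynomial K) (hP : P.natDegree ≤ d) (h0 : P.coeff 0 = 0) :
    ∑ v, P.eval (t v) * φ (X v * g) = 0 := by
  have := relation d t (fun v => φ (X v * g)) (by
    intro j
    have h1 := h.theta j g
    unfold MC.theta at h1
    rw [Finset.sum_mul, map_sum] at h1
    rw [← h1]
    apply Finset.sum_congr rfl
    intro v _
    rw [mul_assoc, ← smul_eq_C_mul, map_smul]) P hP h0
  simpa only [smul_eq_mul] using this

theorem kills_monomial [DecidableEq V] {d : ℕ} {t : V → K} (ht : Function.Injective t)
    (ht0 : ∀ v, t v ≠ 0) {φ : MvPolynomial V K →ₗ[K] K} (h : Kills d t φ) (s : Finset V)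
    (hs : ∀ F : Finset V, F.card = d → s ⊆ F → φ (∏ v ∈ F, X v) = 0) :
    ∀ (n : ℕ) (e : V →₀ ℕ), Fintype.card V - e.support.card = n → s ⊆ e.support →
      φ (monomial e 1) = 0 := by
  intro n
  induction n using Nat.strong_induction_on with
  | _ n ih =>
    intro e hen hse
    by_cases hdeg : e.degree = d
    swap
    · exact h.deg e.degree hdeg _ (isHomogeneous_monomial _ rfl)
    have hcard_le : e.support.card ≤ d := by
      rw [← hdeg, Finsupp.degree_apply]
      calc e.support.card = ∑ _v ∈ e.support, 1 := by simp
        _ ≤ _ := Finset.sum_le_sum fun v hv => Nat.one_le_iff_ne_zero.2 (Finsupp.mem_support_iff.1 hv)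
    rcases Nat.lt_or_ge e.support.card d with hlt | hge
    · -- some exponent is at least two
      obtain ⟨u, hu, hu2⟩ : ∃ u ∈ e.support, 2 ≤ e u := by
        by_contra hcon
        push Not at hcon
        have : e.degree ≤ e.support.card := by
          rw [Finsupp.degree_apply]
          calc _ ≤ ∑ _v ∈ e.support, 1 := Finset.sum_le_sum fun v hv => by
                have := hcon v hv; omega
            _ = _ := by simp
        omega
      set e' : V →₀ ℕ := e - Finsupp.single u 1 with he'
      have hee : e = Finsupp.single u 1 + e' := by
        ext v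
        rw [he', Finsupp.add_apply, Finsupp.tsub_apply]
        by_cases hv : v = u
        · subst hv
          rw [Finsupp.single_eq_same]
          omega
        · rw [Finsupp.single_eq_of_ne hv]
          omega
      have hsup : e'.support = e.support := by
        ext v
        rw [Finsupp.mem_support_iff, Finsupp.mem_support_iff, he', Finsupp.tsub_apply]
        by_cases hv : v = u
        · subst hv
          rw [Finsupp.single_eq_same]
          constructor <;> intro _ <;> omega
        · rw [Finsupp.single_eq_of_ne hv, Nat.sub_zero]
      set T := e.support with hT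
      set Q : Polynomial K := Polynomial.X * ∏ w ∈ T.erase u, (Polynomial.X - Polynomial.C (t w))
        with hQ
      have hQd : Q.natDegree ≤ d := by
        refine (Polynomial.natDegree_mul_le).trans ?_
        rw [Polynomial.natDegree_X, Polynomial.natDegree_finsetProd_X_sub_C_eq_card,
          Finset.card_erase_of_mem hu]
        omega
      have hQ0 : Q.coeff 0 = 0 := by rw [hQ, Polynomial.mul_coeff_zero]; simp
      have hev : ∀ w, Q.eval (t w) = t w * ∏ x ∈ T.erase u, (t w - t x) := by
        intro w
        rw [hQ, Polynomial.eval_mul, Polynomial.eval_X, Polynomial.eval_prod]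
        simp
      have hrel := kills_relation h (monomial e' 1) Q hQd hQ0
      have hsum : ∑ v, Q.eval (t v) * φ (X v * monomial e' 1) =
          Q.eval (t u) * φ (X u * monomial e' 1) := by
        rw [Finset.sum_eq_single u]
        · intro v _ hvu
          by_cases hvT : v ∈ T
          · rw [hev, Finset.prod_eq_zero (Finset.mem_erase.2 ⟨hvu, hvT⟩) (sub_self _), mul_zero,
              zero_mul]
          · have h1 : (X v * monomial e' 1 : MvPolynomial V K) =
                monomial (Finsupp.single v 1 + e') 1 := by
              rw [X, monomial_mul, one_mul]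
            have h2 : (Finsupp.single v 1 + e').support = insert v T := by
              rw [← hsup]
              ext w
              rw [Finsupp.mem_support_iff, Finsupp.add_apply, Finset.mem_insert,
                Finsupp.mem_support_iff]
              by_cases hw : w = v
              · subst hw
                rw [Finsupp.single_eq_same]
                simp
              · rw [Finsupp.single_eq_of_ne hw]
                simp [hw]
            have h3 : T.card < Fintype.card V := by
              rw [← Finset.card_univ]
              exact Finset.card_lt_card ((Finset.ssubset_univ_iff).2 (fun hh => hvT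
                (hh ▸ Finset.mem_univ v)))
            rw [h1, ih (Fintype.card V - (insert v T).card) _ _ (by rw [h2]) _, mul_zero]
            · rw [Finset.card_insert_of_notMem hvT]
              omega
            · rw [h2]
              exact hse.trans (Finset.subset_insert _ _)
        · intro hcon
          exact absurd (Finset.mem_univ u) hcon
      rw [hsum] at hrel
      have hne : Q.eval (t u) ≠ 0 := by
        rw [hev]
        refine mul_ne_zero (ht0 u) (Finset.prod_ne_zero_iff.2 fun x hx => ?_)
        exact sub_ne_zero.2 (fun hh => (Finset.mem_erase.1 hx).1 (ht hh).symm)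
      have h4 : (X u * monomial e' 1 : MvPolynomial V K) = monomial e 1 := by
        rw [X, monomial_mul, one_mul, ← hee]
      rw [h4] at hrel
      exact (mul_eq_zero.1 hrel).resolve_left hne
    · -- squarefree monomial
      have hc : e.support.card = d := le_antisymm hcard_le hge
      have hone : ∀ v ∈ e.support, e v = 1 := by
        have hle : ∀ v ∈ e.support, 1 ≤ e v := fun v hv =>
          Nat.one_le_iff_ne_zero.2 (Finsupp.mem_support_iff.1 hv)
        have hsum : ∑ v ∈ e.support, 1 = ∑ v ∈ e.support, e v := by
          have := hdeg
          rw [Finsupp.degree_apply] at this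
          rw [this, ← hc]
          simp
        intro v hv
        exact ((Finset.sum_eq_sum_iff_of_le hle).1 hsum v hv).symm
      have h5 : (monomial e 1 : MvPolynomial V K) = ∏ v ∈ e.support, X v := by
        rw [monomial_eq, C_1, one_mul, Finsupp.prod]
        apply Finset.prod_congr rfl
        intro v hv
        rw [hone v hv, pow_one]
      rw [h5]
      exact hs _ hc hse

theorem kills_mul [DecidableEq V] {d : ℕ} {t : V → K} (ht : Function.Injective t)
    (ht0 : ∀ v, t v ≠ 0) {φ : MvPolynomial V K →ₗ[K] K} (h : Kills d t φ) (s : Finset V)
    (hs : ∀ F : Finset V, F.card = d → s ⊆ F → φ (∏ v ∈ F, X v) = 0) (g : MvPolynomial V K) :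
    φ ((∏ v ∈ s, X v) * g) = 0 := by
  induction g using MvPolynomial.induction_on' with
  | monomial e c =>
    have h1 : ((∏ v ∈ s, X v) * monomial e c : MvPolynomial V K) =
        c • monomial ((∑ v ∈ s, Finsupp.single v 1) + e) 1 := by
      have h2 : (∏ v ∈ s, X v : MvPolynomial V K) = monomial (∑ v ∈ s, Finsupp.single v 1) 1 := by
        rw [monomial_sum_one]
        rfl
      rw [h2, monomial_mul, one_mul, smul_monomial, smul_eq_mul, mul_one]
    rw [h1, map_smul, kills_monomial ht ht0 h s hs _ _ rfl, smul_zero]
    intro v hv
    rw [Finsupp.mem_support_iff, Finsupp.add_apply, Finsupp.finsetSum_apply]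
    have : 1 ≤ ∑ w ∈ s, (Finsupp.single w 1 : V →₀ ℕ) v := by
      calc 1 = (Finsupp.single v 1 : V →₀ ℕ) v := by rw [Finsupp.single_eq_same]
        _ ≤ _ := Finset.single_le_sum (f := fun w => (Finsupp.single w 1 : V →₀ ℕ) v)
            (fun _ _ => Nat.zero_le _) hv
    omega
  | add p q hp hq => rw [mul_add, map_add, hp, hq, add_zero]

end Pool.Agent.HP42.MC
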