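import Pool.Agent.HP42.MC.Cyc

set_option autoImplicit false

namespace Pool.Agent.HP42.MC

open MvPolynomial

variable {K : Type} [Field K] {V : Type} [Fintype V]

theorem kills_ext [DecidableEq V] {d : ℕ} {t : V → K} (ht : Function.Injective t)
    (ht0 : ∀ v, t v ≠ 0) {φ : MvPolynomial V K →ₗ[K] K} (h : Kills d t φ)
    (hs : ∀ F : Finset V, F.card = d → φ (∏ v ∈ F, X v) = 0) : φ = 0 := by
  refine LinearMap.ext fun f => ?_
  rw [LinearMap.zero_apply]
  induction f using MvPolynomial.induction_on' with
  | monomial e c =>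
    have h1 : (monomial e c : MvPolynomial V K) = c • monomial e 1 := by
      rw [smul_monomial, smul_eq_mul, mul_one]
    rw [h1, map_smul, kills_monomial ht ht0 h ∅ (fun F hF _ => hs F hF) _ e rfl
      (Finset.empty_subset _), smul_zero]
  | add p q hp hq => rw [map_add, hp, hq, add_zero]

variable [LinearOrder V]

/-- The chain of a functional. -/
noncomputable def chain (d : ℕ) (t : V → K) (φ : MvPolynomial V K →ₗ[K] K) (F : Finset V) : K :=
  if F.card = d then φ (∏ v ∈ F, X v) * vol t F else 0

theorem chain_cycle {d : ℕ} {t : V → K} (ht : Function.Injective t)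
    (ht0 : ∀ v, t v ≠ 0) {φ : MvPolynomial V K →ₗ[K] K} (h : Kills d t φ) (hφ : φ ≠ 0) :
    IsCycle d (chain d t φ) where
  ne := by
    intro hc
    apply hφ
    apply kills_ext ht ht0 h
    intro F hF
    have := congrFun hc F
    unfold chain at this
    rw [if_pos hF] at this
    exact (mul_eq_zero.1 this).resolve_right (vol_ne_zero t ht ht0 F)
  card := by
    intro F hF
    by_contra hc
    apply hF
    unfold chain
    rw [if_neg hc]
  boundary := by
    intro G hG
    set P : Polynomial K := Polynomial.X * ∏ g ∈ G, (Polynomial.C (t g) - Polynomial.X) with hP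
    have hPd : P.natDegree ≤ d := by
      refine (Polynomial.natDegree_mul_le).trans ?_
      rw [Polynomial.natDegree_X, ← hG, add_comm]
      refine Nat.add_le_add_right ?_ _
      refine (Polynomial.natDegree_prod_le _ _).trans ?_
      calc ∑ g ∈ G, (Polynomial.C (t g) - Polynomial.X).natDegree ≤ ∑ _g ∈ G, 1 := by
            apply Finset.sum_le_sum
            intro g _
            refine (Polynomial.natDegree_sub_le _ _).trans ?_
            rw [Polynomial.natDegree_C, Polynomial.natDegree_X]
            simp
        _ = G.card := by simp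
    have hP0 : P.coeff 0 = 0 := by rw [hP, Polynomial.mul_coeff_zero]; simp
    have hev : ∀ v, P.eval (t v) = t v * ∏ g ∈ G, (t g - t v) := by
      intro v
      rw [hP, Polynomial.eval_mul, Polynomial.eval_X, Polynomial.eval_prod]
      simp
    have hrel := kills_relation h (∏ v ∈ G, X v) P hPd hP0
    have h1 : ∑ v ∈ Gᶜ, P.eval (t v) * φ (X v * ∏ v ∈ G, X v) = 0 := by
      rw [← hrel]
      apply Finset.sum_subset (Finset.subset_univ _)
      intro v _ hv
      have hvG : v ∈ G := by simpa using hv
      rw [hev, Finset.prod_eq_zero hvG (sub_self _), mul_zero, zero_mul]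
    have h2 : ∑ v ∈ Gᶜ, (-1 : K) ^ (G.filter (· < v)).card * chain d t φ (insert v G) =
        vol t G * ∑ v ∈ Gᶜ, P.eval (t v) * φ (X v * ∏ v ∈ G, X v) := by
      rw [Finset.mul_sum]
      apply Finset.sum_congr rfl
      intro v hv
      have hvG : v ∉ G := Finset.mem_compl.1 hv
      unfold chain
      rw [if_pos (by rw [Finset.card_insert_of_notMem hvG, hG]), Finset.prod_insert hvG, hev]
      linear_combination (φ (X v * ∏ v ∈ G, X v)) * vol_insert t G v hvG
    rw [h2, h1, mul_zero]

theorem chain_degree {d : ℕ} {t : V → K} (ht : Function.Injective t)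
    (ht0 : ∀ v, t v ≠ 0) {φ : MvPolynomial V K →ₗ[K] K} (h : Kills d t φ) :
    IsDegreeMap d t (chain d t φ) φ where
  deg := h.deg
  facet := by
    intro F hF
    unfold chain
    rw [if_pos hF]
  ideal := by
    have hle : momentIdeal d (support (chain d t φ)) t ≤ annIdeal φ := by
      unfold momentIdeal faceIdeal
      rw [sup_le_iff, Ideal.span_le, Ideal.span_le]
      constructor
      · rintro m ⟨s, hs, rfl⟩
        intro g
        apply kills_mul ht ht0 h s
        intro F hF hsF
        by_contra hne
        apply hs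
        refine ⟨F, ?_, hsF⟩
        unfold chain
        rw [if_pos hF]
        exact mul_ne_zero hne (vol_ne_zero t ht ht0 F)
      · rintro m ⟨j, rfl⟩
        intro g
        exact h.theta j g
    intro f hf
    have := hle hf 1
    rwa [mul_one] at this

theorem degree_kills {d : ℕ} {t : V → K} {μ : Finset V → K} {φ : MvPolynomial V K →ₗ[K] K}
    (h : IsDegreeMap d t μ φ) : Kills d t φ where
  deg := h.deg
  theta := by
    intro j g
    apply h.ideal
    exact Ideal.mul_mem_right _ _ (Ideal.mem_sup_right (Ideal.subset_span ⟨j, rfl⟩))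

theorem degree_unique {d : ℕ} {t : V → K} (ht : Function.Injective t) (ht0 : ∀ v, t v ≠ 0)
    {μ : Finset V → K} {φ φ' : MvPolynomial V K →ₗ[K] K} (h : IsDegreeMap d t μ φ)
    (h' : IsDegreeMap d t μ φ') : φ = φ' := by
  have hk := degree_kills h
  have hk' := degree_kills h'
  have hs : Kills d t (φ - φ') := by
    refine ⟨?_, ?_⟩
    · intro k hk1 f hf
      rw [LinearMap.sub_apply, hk.deg k hk1 f hf, hk'.deg k hk1 f hf, sub_zero]
    · intro j g
      rw [LinearMap.sub_apply, hk.theta, hk'.theta, sub_zero]
  rw [← sub_eq_zero]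
  apply kills_ext ht ht0 hs
  intro F hF
  have h1 := h.facet F hF
  have h2 := h'.facet F hF
  have h3 : (φ (∏ v ∈ F, X v) - φ' (∏ v ∈ F, X v)) * vol t F = 0 := by
    rw [sub_mul, h1, h2, sub_self]
  rw [LinearMap.sub_apply]
  exact (mul_eq_zero.1 h3).resolve_right (vol_ne_zero t ht ht0 F)

theorem degree_ne_zero {d : ℕ} {t : V → K}
    {μ : Finset V → K} (hμ : IsCycle d μ) {φ : MvPolynomial V K →ₗ[K] K}
    (h : IsDegreeMap d t μ φ) : φ ≠ 0 := by
  rintro rfl
  apply hμ.ne
  ext F
  by_cases hF : F.card = d
  · rw [← h.facet F hF]; simp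
  · by_contra hne
    exact hF (hμ.card F hne)

end Pool.Agent.HP42.MC
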