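import Pool.Agent.HP42.MC.Perazzo

set_option autoImplicit false

namespace Pool.Agent.HP42.MC

open MvPolynomial

variable {K : Type} [Field K]

theorem cyc_main (d : ℕ) (hd : 3 ≤ d) (t : Fin (d + 5) → K) (ht : Function.Injective t)
    (ht0 : ∀ v, t v ≠ 0) : ∃ μ : Finset (Fin (d + 5)) → K, IsCycle d μ ∧
      (∃ φ, IsDegreeMap d t μ φ) ∧ ∀ φ, IsDegreeMap d t μ φ → ¬ Lefschetz d (annIdeal φ) := by
  obtain ⟨n, rfl⟩ : ∃ n, d = n + 3 := ⟨d - 3, by omega⟩
  obtain ⟨E, hE, hs⟩ := coords (n + 3) 5 (by rw [Fintype.card_fin]) t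
  have hk := kills_of hE (per K n) (fun k hk f hf => per_deg n k hk f hf)
  set φ := (per K n).comp (sub E).toLinearMap with hφ
  have hne : φ ≠ 0 := by
    intro h
    apply per_ne_zero (K := K) n
    refine LinearMap.ext fun g => ?_
    obtain ⟨f, rfl⟩ := sub_surj hs g
    have := LinearMap.congr_fun h f
    exact this
  refine ⟨chain (n + 3) t φ, chain_cycle ht ht0 hk hne, ⟨φ, chain_degree ht ht0 hk⟩, ?_⟩
  intro φ' hφ'
  rw [degree_unique ht ht0 hφ' (chain_degree ht ht0 hk)]
  exact per_not_lefschetz n E hs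

/-- coefficient of `y_0 y_1` -/
noncomputable def alt (K : Type) [Field K] : MvPolynomial (Fin 5) K →ₗ[K] K :=
  lcoeff K (Finsupp.single 0 1 + Finsupp.single 1 1)

theorem alt_deg (k : ℕ) (hk : k ≠ 2) (f : MvPolynomial (Fin 5) K)
    (hf : f.IsHomogeneous k) : alt K f = 0 := by
  change coeff _ f = 0
  apply hf.coeff_eq_zero
  rw [map_add, Finsupp.degree_single, Finsupp.degree_single]
  exact Ne.symm hk

theorem alt_val : alt K (X 0 * X 1) = 1 := by
  change coeff _ _ = 1
  rw [X, X, monomial_mul, coeff_monomial, if_pos rfl, one_mul]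

theorem alt_sq (h2 : (2 : K) = 0) (l : MvPolynomial (Fin 5) K) (hl : l.IsHomogeneous 1) :
    alt K (l ^ 2) = 0 := by
  have h' : l ∈ homogeneousSubmodule (Fin 5) K 1 := hl
  rw [homogeneousSubmodule_one_eq_span_X] at h'
  clear hl
  induction h' using Submodule.span_induction with
  | mem x hx =>
    obtain ⟨i, rfl⟩ := hx
    change coeff (Finsupp.single 0 1 + Finsupp.single 1 1) (X i ^ 2 : MvPolynomial (Fin 5) K) = 0
    rw [X_pow_eq_monomial, coeff_monomial, if_neg]
    intro h
    have h0 := DFunLike.congr_fun h 0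
    have h1 := DFunLike.congr_fun h 1
    fin_cases i <;> simp at h0 h1
  | zero => rw [zero_pow two_ne_zero, map_zero]
  | add x y _ _ hx hy =>
    have e1 : (x + y) ^ 2 = x ^ 2 + y ^ 2 + (2 : K) • (x * y) := by
      rw [smul_eq_C_mul]
      have : (C 2 : MvPolynomial (Fin 5) K) = 2 := by rw [map_ofNat]
      rw [this]
      ring
    rw [e1, h2, zero_smul, add_zero, map_add, hx, hy, add_zero]
  | smul a x _ hx => rw [smul_pow, map_smul, hx, smul_zero]

theorem cyc_two (h2 : (2 : K) = 0) (t : Fin (2 + 5) → K) (ht : Function.Injective t)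
    (ht0 : ∀ v, t v ≠ 0) : ∃ μ : Finset (Fin (2 + 5)) → K, IsCycle 2 μ ∧
      (∃ φ, IsDegreeMap 2 t μ φ) ∧ ∀ φ, IsDegreeMap 2 t μ φ → ¬ Lefschetz 2 (annIdeal φ) := by
  obtain ⟨E, hE, hs⟩ := coords 2 5 (by rw [Fintype.card_fin]) t
  have hk := kills_of hE (alt K) (fun k hk f hf => alt_deg k hk f hf)
  set φ := (alt K).comp (sub E).toLinearMap with hφ
  have hne : φ ≠ 0 := by
    intro h
    obtain ⟨f, hf⟩ := sub_surj hs (X 0 * X 1)
    have h1 := LinearMap.congr_fun h f
    have h2 : alt K (sub E f) = 0 := h1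
    rw [hf, alt_val] at h2
    exact one_ne_zero h2
  refine ⟨chain 2 t φ, chain_cycle ht ht0 hk hne, ⟨φ, chain_degree ht ht0 hk⟩, ?_⟩
  intro φ' hφ'
  rw [degree_unique ht ht0 hφ' (chain_degree ht ht0 hk)]
  rintro ⟨l, hl, hk2⟩
  have hinj := (hk2 0 (by omega)).1 1 (isHomogeneous_one _ K)
  have hsq : alt K (sub E l ^ 2) = 0 := alt_sq h2 _ (sub_hom E hl)
  have hmem : l ^ (2 - 2 * 0) * 1 ∈ annIdeal φ := by
    intro g
    change alt K (sub E (l ^ 2 * 1 * g)) = 0
    rw [mul_one, map_mul (sub E), map_pow (sub E)]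
    generalize sub E g = h
    induction h using MvPolynomial.induction_on' with
    | monomial e c =>
      by_cases he : e = 0
      · subst he
        have e1 : (monomial 0 c : MvPolynomial (Fin 5) K) = c • 1 := by
          rw [smul_eq_C_mul, mul_one]; rfl
        rw [e1, mul_smul_comm, mul_one, map_smul, hsq, smul_zero]
      · have h1 : (sub E l ^ 2 * monomial e c).IsHomogeneous (1 * 2 + e.degree) :=
          ((sub_hom E hl).pow 2).mul (isHomogeneous_monomial _ rfl)
        apply alt_deg _ _ _ h1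
        intro h
        apply he
        rw [← Finsupp.degree_eq_zero_iff]
        omega
    | add p q hp hq => rw [mul_add, map_add, hp, hq, add_zero]
  have := hinj hmem
  apply hne
  refine LinearMap.ext fun g => ?_
  have h1 := this g
  rw [one_mul] at h1
  exact h1

/-- In dimension zero the property holds. -/
theorem pos_one {V : Type} [Fintype V] [LinearOrder V] {t : V → K} (ht : Function.Injective t)
    (ht0 : ∀ v, t v ≠ 0) {μ : Finset V → K} (hμ : IsCycle 1 μ) {φ : MvPolynomial V K →ₗ[K] K}
    (h : IsDegreeMap 1 t μ φ) : Lefschetz 1 (annIdeal φ) := by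
  have hk := degree_kills h
  have hne := degree_ne_zero hμ h
  obtain ⟨v, hv⟩ : ∃ v, φ (X v) ≠ 0 := by
    by_contra hcon
    push Not at hcon
    apply hne
    apply kills_ext ht ht0 hk
    intro F hF
    obtain ⟨v, rfl⟩ := Finset.card_eq_one.1 hF
    rw [Finset.prod_singleton]
    exact hcon v
  refine ⟨X v, isHomogeneous_X _ _, ?_⟩
  intro k hk1
  obtain rfl : k = 0 := by omega
  rw [mul_zero, Nat.sub_zero, pow_one]
  constructor
  · intro f hf hf1
    rw [← totalDegree_zero_iff_isHomogeneous, totalDegree_eq_zero_iff_eq_C] at hf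
    rw [hf] at hf1 ⊢
    have h1 := hf1 1
    rw [mul_one, mul_comm, ← smul_eq_C_mul, map_smul, smul_eq_mul] at h1
    rw [(mul_eq_zero.1 h1).resolve_right hv, C_0]
    exact Ideal.zero_mem _
  · intro g hg
    refine ⟨C (φ g / φ (X v)), isHomogeneous_C _ _, ?_⟩
    have hg1 : (g - X v * C (φ g / φ (X v))).IsHomogeneous 1 := by
      have := (isHomogeneous_X (R := K) v).mul (isHomogeneous_C V (φ g / φ (X v)))
      exact hg.sub this
    have hz : φ (g - X v * C (φ g / φ (X v))) = 0 := by
      rw [map_sub, mul_comm, ← smul_eq_C_mul, map_smul, smul_eq_mul, div_mul_cancel₀ _ hv, sub_self]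
    intro q
    induction q using MvPolynomial.induction_on' with
    | monomial e c =>
      by_cases he : e = 0
      · subst he
        have e1 : (monomial 0 c : MvPolynomial V K) = c • 1 := by
          rw [smul_eq_C_mul, mul_one]; rfl
        rw [e1, mul_smul_comm, mul_one, map_smul, hz, smul_zero]
      · apply hk.deg _ _ _ (hg1.mul (isHomogeneous_monomial c (rfl : e.degree = e.degree)))
        intro h'
        apply he
        rw [← Finsupp.degree_eq_zero_iff]
        omega
    | add p q hp hq => rw [mul_add, map_add, hp, hq, add_zero]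

/-- In dimension one and characteristic not two the property holds. -/
theorem pos_two (h2 : (2 : K) ≠ 0) {V : Type} [Fintype V] [LinearOrder V] {t : V → K}
    (ht : Function.Injective t) (ht0 : ∀ v, t v ≠ 0) {μ : Finset V → K} (hμ : IsCycle 2 μ)
    {φ : MvPolynomial V K →ₗ[K] K} (h : IsDegreeMap 2 t μ φ) : Lefschetz 2 (annIdeal φ) := by
  have hk := degree_kills h
  have hne := degree_ne_zero hμ h
  obtain ⟨l, hl, hl2⟩ : ∃ l : MvPolynomial V K, l.IsHomogeneous 1 ∧ φ (l ^ 2) ≠ 0 := by
    by_contra hcon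
    push Not at hcon
    apply hne
    apply kills_ext ht ht0 hk
    intro F hF
    obtain ⟨u, v, huv, rfl⟩ := Finset.card_eq_two.1 hF
    rw [Finset.prod_insert (by simpa using huv), Finset.prod_singleton]
    have a1 := hcon (X u + X v) ((isHomogeneous_X _ _).add (isHomogeneous_X _ _))
    have a2 := hcon (X u) (isHomogeneous_X _ _)
    have a3 := hcon (X v) (isHomogeneous_X _ _)
    have e1 : (X u + X v : MvPolynomial V K) ^ 2 = X u ^ 2 + X v ^ 2 + (2 : K) • (X u * X v) := by
      rw [smul_eq_C_mul]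
      have : (C 2 : MvPolynomial V K) = 2 := by rw [map_ofNat]
      rw [this]
      ring
    rw [e1, map_add, map_add, a2, a3, map_smul, smul_eq_mul, add_zero, zero_add] at a1
    exact (mul_eq_zero.1 a1).resolve_left h2
  refine ⟨l, hl, ?_⟩
  intro k hk1
  rcases Nat.eq_zero_or_pos k with rfl | hkp
  · rw [mul_zero, Nat.sub_zero]
    constructor
    · intro f hf hf1
      rw [← totalDegree_zero_iff_isHomogeneous, totalDegree_eq_zero_iff_eq_C] at hf
      rw [hf] at hf1 ⊢
      have h1 := hf1 1
      rw [mul_one, mul_comm, ← smul_eq_C_mul, map_smul, smul_eq_mul] at h1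
      rw [(mul_eq_zero.1 h1).resolve_right hl2, C_0]
      exact Ideal.zero_mem _
    · intro g hg
      refine ⟨C (φ g / φ (l ^ 2)), isHomogeneous_C _ _, ?_⟩
      have hg1 : (g - l ^ 2 * C (φ g / φ (l ^ 2))).IsHomogeneous 2 := by
        have := (hl.pow 2).mul (isHomogeneous_C V (φ g / φ (l ^ 2)))
        exact hg.sub this
      have hz : φ (g - l ^ 2 * C (φ g / φ (l ^ 2))) = 0 := by
        rw [map_sub, mul_comm, ← smul_eq_C_mul, map_smul, smul_eq_mul, div_mul_cancel₀ _ hl2,
          sub_self]
      intro q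
      induction q using MvPolynomial.induction_on' with
      | monomial e c =>
        by_cases he : e = 0
        · subst he
          have e1 : (monomial 0 c : MvPolynomial V K) = c • 1 := by
            rw [smul_eq_C_mul, mul_one]; rfl
          rw [e1, mul_smul_comm, mul_one, map_smul, hz, smul_zero]
        · apply hk.deg _ _ _ (hg1.mul (isHomogeneous_monomial c (rfl : e.degree = e.degree)))
          intro h'
          apply he
          rw [← Finsupp.degree_eq_zero_iff]
          omega
      | add p q hp hq => rw [mul_add, map_add, hp, hq, add_zero]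
  · obtain rfl : k = 1 := by omega
    rw [mul_one, Nat.sub_self, pow_zero]
    constructor
    · intro f _ hf1
      rwa [one_mul] at hf1
    · intro g hg
      refine ⟨g, hg, ?_⟩
      rw [one_mul, sub_self]
      exact Ideal.zero_mem _

end Pool.Agent.HP42.MC
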