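import Mathlib

/-!
# Face rings, moment-curve systems of parameters, degree maps, the Lefschetz property
-/

set_option autoImplicit false

namespace Pool.Agent.HP42.MC

open MvPolynomial

/-- The face ideal of a simplicial complex, given as the set `D` of its faces (finite sets of
vertices): it is generated by the products of the variables over the sets which are not faces. -/
noncomputable def faceIdeal (K : Type) [Field K] {V : Type} (D : Set (Finset V)) :
    Ideal (MvPolynomial V K) :=
  Ideal.span {m | ∃ s : Finset V, s ∉ D ∧ m = ∏ v ∈ s, X v}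

/-- The linear form `θ_j = ∑ v, t_v ^ j x_v`. -/
noncomputable def theta {K : Type} [Field K] {V : Type} [Fintype V] (t : V → K) (j : ℕ) :
    MvPolynomial V K := ∑ v, C (t v ^ j) * X v

/-- The ideal generated by the face ideal of `D` and the moment-curve system
`θ_1, ..., θ_d` for the parameters `t`. The Artinian reduction is the quotient of the polynomial ring
by this ideal. -/
noncomputable def momentIdeal {K : Type} [Field K] {V : Type} [Fintype V] (d : ℕ)
    (D : Set (Finset V)) (t : V → K) : Ideal (MvPolynomial V K) :=
  faceIdeal K D ⊔ Ideal.span (Set.range fun j : Fin d => theta t (j.val + 1))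

/-- The Lefschetz property with top degree `d` of the quotient `B` of the polynomial ring by the
homogeneous ideal `J`: for some linear form `l` the multiplication by `l ^ (d - 2 k)` is injective and
surjective as a map from the part of degree `k` to the part of degree `d - k` of `B`, for all
`k ≤ d / 2`. -/
def Lefschetz {K : Type} [Field K] {V : Type} (d : ℕ) (J : Ideal (MvPolynomial V K)) : Prop :=
  ∃ l : MvPolynomial V K, l.IsHomogeneous 1 ∧ ∀ k, 2 * k ≤ d →
    (∀ f : MvPolynomial V K, f.IsHomogeneous k → l ^ (d - 2 * k) * f ∈ J → f ∈ J) ∧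
    ∀ g : MvPolynomial V K, g.IsHomogeneous (d - k) →
      ∃ f : MvPolynomial V K, f.IsHomogeneous k ∧ g - l ^ (d - 2 * k) * f ∈ J

/-- The set of the faces of the support of a chain `μ` (a function on the facets): the sets contained
in a facet where `μ` does not vanish. -/
def support {K : Type} [Field K] {V : Type} (μ : Finset V → K) : Set (Finset V) :=
  {s | ∃ F, μ F ≠ 0 ∧ s ⊆ F}

/-- `μ` is a nonzero simplicial cycle of dimension `d - 1`: it is supported on sets of `d` vertices
and its boundary is zero. (The simplices are oriented by the order of the vertices.) -/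
structure IsCycle {K : Type} [Field K] {V : Type} [Fintype V] [LinearOrder V] (d : ℕ)
    (μ : Finset V → K) : Prop where
  ne : μ ≠ 0
  card : ∀ F, μ F ≠ 0 → F.card = d
  boundary : ∀ G : Finset V, G.card + 1 = d →
    ∑ v ∈ Gᶜ, (-1 : K) ^ (G.filter (· < v)).card * μ (insert v G) = 0

/-- The determinant of the points `(t_v, t_v ^ 2, ..., t_v ^ d)` of the moment curve at the `d`
vertices of `F`, in increasing order. -/
noncomputable def vol {K : Type} [Field K] {V : Type} [LinearOrder V] (t : V → K)
    (F : Finset V) : K :=
  (Matrix.of fun i j : Fin F.card => t (F.orderEmbOfFin rfl i) ^ (j.val + 1)).det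

/-- `φ` is the degree map `A^d → K` of the cycle `μ` in the Artinian reduction of its support by the
moment-curve system, extended to the polynomial ring (by zero in the degrees other than `d`): it is
zero on the ideal of the Artinian reduction, and its value at the monomial of a facet `F` is
`μ F / vol F`. -/
structure IsDegreeMap {K : Type} [Field K] {V : Type} [Fintype V] [LinearOrder V] (d : ℕ)
    (t : V → K) (μ : Finset V → K) (φ : MvPolynomial V K →ₗ[K] K) : Prop where
  deg : ∀ k, k ≠ d → ∀ f : MvPolynomial V K, f.IsHomogeneous k → φ f = 0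
  ideal : ∀ f ∈ momentIdeal d (support μ) t, φ f = 0
  facet : ∀ F : Finset V, F.card = d → φ (∏ v ∈ F, X v) * vol t F = μ F

/-- The ideal of the polynomials `f` with `φ (f g) = 0` for all `g`. For a degree map `φ` of the cycle
`μ` the quotient by it is the Gorenstein algebra `B(μ)`. -/
def annIdeal {K : Type} [Field K] {V : Type} (φ : MvPolynomial V K →ₗ[K] K) :
    Ideal (MvPolynomial V K) where
  carrier := {f | ∀ g, φ (f * g) = 0}
  add_mem' := by
    intro a b ha hb g
    rw [add_mul, map_add, ha g, hb g, add_zero]
  zero_mem' := by
    intro g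
    rw [zero_mul, map_zero]
  smul_mem' := by
    intro c x hx g
    rw [smul_eq_mul, mul_comm c x, mul_assoc]
    exact hx (c * g)

/-- The stellar subdivision of the complex `D` at its face `F`, with new vertex `w`. -/
def stellar (D : Set (Finset ℕ)) (F : Finset ℕ) (w : ℕ) : Set (Finset ℕ) :=
  {s | s ∈ D ∧ ¬ F ⊆ s} ∪ {s | w ∈ s ∧ ¬ F ⊆ s.erase w ∧ s.erase w ∪ F ∈ D}

/-- Simplicial complexes with vertices in `ℕ`, given by their sets of faces. -/
structure IsComplex {V : Type} (D : Set (Finset V)) : Prop where
  empty : ∅ ∈ D
  down : ∀ s ∈ D, ∀ r ⊆ s, r ∈ D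

/-- The piecewise linear spheres of dimension `m`, with vertices in `ℕ`: the simplicial complexes
which are obtained from the boundary of a simplex of dimension `m + 1` by stellar subdivisions and
their inverses (a subdivision at a vertex renames it). -/
inductive PLSphere (m : ℕ) : Set (Finset ℕ) → Prop
  | simplex (S : Finset ℕ) : S.card = m + 2 → PLSphere m {s | s ⊂ S}
  | subdivide (D : Set (Finset ℕ)) (F : Finset ℕ) (w : ℕ) : PLSphere m D → F ∈ D → F.Nonempty →
      {w} ∉ D → PLSphere m (stellar D F w)
  | weld (D : Set (Finset ℕ)) (F : Finset ℕ) (w : ℕ) : IsComplex D → F ∈ D → F.Nonempty →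
      {w} ∉ D → PLSphere m (stellar D F w) → PLSphere m D

/-- The complex `D` on the vertex set `V` is isomorphic to a piecewise linear sphere of dimension
`m`. -/
def IsPLSphere {V : Type} (m : ℕ) (D : Set (Finset V)) : Prop :=
  ∃ e : V ↪ ℕ, PLSphere m ((fun s : Finset V => s.map e) '' D)

end Pool.Agent.HP42.MC
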