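import Pool.Agent.HP42.MC.Coord

/-!
Every cycle has a degree map (the canonical isomorphism), by a count of dimensions.
-/

set_option autoImplicit false

namespace Pool.Agent.HP42.MC

open MvPolynomial

variable {K : Type} [Field K] {V : Type} [Fintype V] [LinearOrder V]

/-- The boundary at `G`. -/
noncomputable def bd (μ : Finset V → K) (G : Finset V) : K :=
  ∑ v ∈ Gᶜ, (-1 : K) ^ (G.filter (· < v)).card * μ (insert v G)

theorem bd_sub (μ ν : Finset V → K) (G : Finset V) :
    bd (fun F => μ F - ν F) G = bd μ G - bd ν G := by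
  unfold bd
  rw [← Finset.sum_sub_distrib]
  apply Finset.sum_congr rfl
  intro v _
  ring

/-- A chain without boundary is zero if it is zero on the facets without the vertex `v₀`. -/
theorem eq_zero_of_bd (d : ℕ) (hd : 1 ≤ d) (μ : Finset V → K) (hb : ∀ G, G.card + 1 = d → bd μ G = 0)
    (v₀ : V) (h0 : ∀ F, F.card = d → v₀ ∉ F → μ F = 0) (F : Finset V) (hF : F.card = d) :
    μ F = 0 := by
  by_cases hv : v₀ ∈ F
  · have hG := hb (F.erase v₀) (by rw [Finset.card_erase_of_mem hv, hF]; omega)
    unfold bd at hG
    rw [Finset.sum_eq_single v₀] at hG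
    · rw [Finset.insert_erase hv] at hG
      exact (mul_eq_zero.1 hG).resolve_left (pow_ne_zero _ (neg_ne_zero.2 one_ne_zero))
    · intro v hvc hne
      have hvF : v ∉ F.erase v₀ := Finset.mem_compl.1 hvc
      rw [h0 (insert v (F.erase v₀)), mul_zero]
      · rw [Finset.card_insert_of_notMem hvF, Finset.card_erase_of_mem hv, hF]
        omega
      · rw [Finset.mem_insert, not_or]
        exact ⟨Ne.symm hne, Finset.notMem_erase _ _⟩
    · intro h
      exact absurd (Finset.mem_compl.2 (Finset.notMem_erase _ _)) h
  · exact h0 F hF hv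

theorem degree_exists {d : ℕ} (hd : 1 ≤ d) {t : V → K} (ht : Function.Injective t)
    (ht0 : ∀ v, t v ≠ 0) {μ : Finset V → K} (hμ : IsCycle d μ) : ∃ φ, IsDegreeMap d t μ φ := by
  classical
  have hbμ : ∀ G : Finset V, G.card + 1 = d → bd μ G = 0 := hμ.boundary
  -- there are at least `d + 1` vertices
  obtain ⟨F0, hF0⟩ : ∃ F, μ F ≠ 0 := by
    by_contra h
    push Not at h
    exact hμ.ne (funext h)
  have hF0c := hμ.card F0 hF0
  obtain ⟨v₀, hv₀⟩ : ∃ v₀, v₀ ∉ F0 := by
    by_contra h
    push Not at h
    have huniv : F0 = Finset.univ := Finset.eq_univ_iff_forall.2 h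
    obtain ⟨v, hv⟩ : F0.Nonempty := Finset.card_pos.1 (by omega)
    have hG := hbμ (F0.erase v) (by rw [Finset.card_erase_of_mem hv, hF0c]; omega)
    unfold bd at hG
    have hcompl : (F0.erase v)ᶜ = {v} := by
      ext w
      rw [Finset.mem_compl, Finset.mem_erase, Finset.mem_singleton]
      constructor
      · intro h1
        by_contra h2
        exact h1 ⟨h2, h w⟩
      · rintro rfl h1
        exact h1.1 rfl
    rw [hcompl, Finset.sum_singleton, Finset.insert_erase hv] at hG
    exact hF0 ((mul_eq_zero.1 hG).resolve_left (pow_ne_zero _ (neg_ne_zero.2 one_ne_zero)))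
  obtain ⟨r, hr⟩ : ∃ r, Fintype.card V = d + (r + 1) := by
    have h1 : F0.card < Fintype.card V := by
      rw [← Finset.card_univ]
      exact Finset.card_lt_card (Finset.ssubset_univ_iff.2 (fun h => hv₀ (h ▸ Finset.mem_univ _)))
    exact ⟨Fintype.card V - d - 1, by omega⟩
  obtain ⟨E, hE, hs⟩ := coords d (r + 1) hr t
  -- the functionals
  let ex : Sym (Fin (r + 1)) d → (Fin (r + 1) →₀ ℕ) := fun s => Multiset.toFinsupp s.1
  have hex : Function.Injective ex := by
    intro s s' h
    exact Subtype.ext (Multiset.toFinsupp.injective h)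
  have hexd : ∀ s, (ex s).degree = d := by
    intro s
    have h1 : (ex s).degree = Multiset.card (Finsupp.toMultiset (ex s)) := by
      rw [Finsupp.card_toMultiset]
      rfl
    rw [h1]
    change Multiset.card (Finsupp.toMultiset (Multiset.toFinsupp s.1)) = d
    rw [Multiset.toFinsupp_toMultiset]
    exact s.2
  let Φ : (Sym (Fin (r + 1)) d → K) → MvPolynomial (Fin (r + 1)) K →ₗ[K] K :=
    fun a => ∑ s, a s • lcoeff K (ex s)
  have hΦ : ∀ a f, Φ a f = ∑ s, a s * coeff (ex s) f := by
    intro a f
    change (∑ s, a s • lcoeff K (ex s)) f = _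
    rw [LinearMap.sum_apply]
    rfl
  have hΦd : ∀ a k, k ≠ d → ∀ f : MvPolynomial (Fin (r + 1)) K, f.IsHomogeneous k → Φ a f = 0 := by
    intro a k hk f hf
    rw [hΦ]
    apply Finset.sum_eq_zero
    intro s _
    rw [hf.coeff_eq_zero (by rw [hexd]; exact Ne.symm hk), mul_zero]
  have hkill : ∀ a, Kills d t ((Φ a).comp (sub E).toLinearMap) := fun a =>
    kills_of hE (Φ a) (hΦd a)
  let J : Finset (Finset V) := Finset.powersetCard d (Finset.univ.erase v₀)
  let T : (Sym (Fin (r + 1)) d → K) →ₗ[K] ({F // F ∈ J} → K) :=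
    Matrix.toLin' (Matrix.of fun (F : {F // F ∈ J}) (s : Sym (Fin (r + 1)) d) =>
      coeff (ex s) (sub E (∏ v ∈ F.1, X v)) * vol t F.1)
  have hT : ∀ a (F : {F // F ∈ J}), T a F = chain d t ((Φ a).comp (sub E).toLinearMap) F.1 := by
    intro a F
    have hFc : F.1.card = d := (Finset.mem_powersetCard.1 F.2).2
    simp only [T, Matrix.toLin'_apply, Matrix.mulVec, dotProduct, Matrix.of_apply]
    unfold chain
    rw [if_pos hFc]
    change _ = Φ a (sub E (∏ v ∈ F.1, X v)) * vol t F.1
    rw [hΦ, Finset.sum_mul]
    apply Finset.sum_congr rfl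
    intro s _
    ring
  have hbc : ∀ a (G : Finset V), G.card + 1 = d →
      bd (chain d t ((Φ a).comp (sub E).toLinearMap)) G = 0 := by
    intro a G hG
    by_cases hz : (Φ a).comp (sub E).toLinearMap = 0
    · rw [hz]
      unfold bd
      apply Finset.sum_eq_zero
      intro v _
      unfold chain
      simp
    · exact (chain_cycle ht ht0 (hkill a) hz).boundary G hG
  have hinj : Function.Injective T := by
    rw [injective_iff_map_eq_zero]
    intro a ha
    have h1 : ∀ F : Finset V, F.card = d → chain d t ((Φ a).comp (sub E).toLinearMap) F = 0 := by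
      intro F hF
      apply eq_zero_of_bd d hd _ (hbc a) v₀ _ F hF
      intro F' hF' hv
      have hmem : F' ∈ J := by
        rw [Finset.mem_powersetCard]
        refine ⟨?_, hF'⟩
        intro w hw
        exact Finset.mem_erase.2 ⟨fun h => hv (h ▸ hw), Finset.mem_univ _⟩
      rw [← hT a ⟨F', hmem⟩, ha]
      rfl
    have h2 : (Φ a).comp (sub E).toLinearMap = 0 := by
      apply kills_ext ht ht0 (hkill a)
      intro F hF
      have := h1 F hF
      unfold chain at this
      rw [if_pos hF] at this
      exact (mul_eq_zero.1 this).resolve_right (vol_ne_zero t ht ht0 F)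
    ext s
    obtain ⟨f, hf⟩ := sub_surj hs (monomial (ex s) (1 : K))
    have h3 := LinearMap.congr_fun h2 f
    have h4 : Φ a (sub E f) = 0 := h3
    rw [hf, hΦ, Finset.sum_eq_single s] at h4
    · rw [coeff_monomial, if_pos rfl, mul_one] at h4
      exact h4
    · intro s' _ hne
      rw [coeff_monomial, if_neg (fun h => hne (hex h).symm), mul_zero]
    · intro h
      exact absurd (Finset.mem_univ s) h
  have hdim : Module.finrank K (Sym (Fin (r + 1)) d → K) = Module.finrank K ({F // F ∈ J} → K) := by
    rw [Module.finrank_fintype_fun_eq_card, Module.finrank_fintype_fun_eq_card,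
      Sym.card_sym_eq_multichoose, Fintype.card_coe, Finset.card_powersetCard,
      Finset.card_erase_of_mem (Finset.mem_univ _), Finset.card_univ, hr, Nat.multichoose_eq,
      Fintype.card_fin]
    congr 1
    omega
  have hsurj : Function.Surjective T :=
    (LinearMap.injective_iff_surjective_of_finrank_eq_finrank hdim).1 hinj
  obtain ⟨a, ha⟩ := hsurj (fun F => μ F.1)
  refine ⟨(Φ a).comp (sub E).toLinearMap, ?_⟩
  have hchain : chain d t ((Φ a).comp (sub E).toLinearMap) = μ := by
    ext F
    by_cases hF : F.card = d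
    · have := eq_zero_of_bd d hd
        (fun F => chain d t ((Φ a).comp (sub E).toLinearMap) F - μ F) (by
          intro G hG
          rw [bd_sub, hbc a G hG, hbμ G hG, sub_zero]) v₀ (by
          intro F' hF' hv
          have hmem : F' ∈ J := by
            rw [Finset.mem_powersetCard]
            refine ⟨?_, hF'⟩
            intro w hw
            exact Finset.mem_erase.2 ⟨fun h => hv (h ▸ hw), Finset.mem_univ _⟩
          have h1 := congrFun ha ⟨F', hmem⟩
          rw [hT a ⟨F', hmem⟩] at h1
          simp only at h1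
          simp only [h1, sub_self]) F hF
      exact sub_eq_zero.1 this
    · have h1 : μ F = 0 := by
        by_contra hne
        exact hF (hμ.card F hne)
      rw [h1]
      unfold chain
      rw [if_neg hF]
  have := chain_degree ht ht0 (hkill a)
  rw [hchain] at this
  exact this

end Pool.Agent.HP42.MC
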