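import Pool.Agent.HP42.MC.Defs

set_option autoImplicit false

namespace Pool.Agent.HP42.MC

/-- The join of the boundaries of the simplices on the vertex sets `T` and `Tᶜ`. -/
def joinBd {V : Type} [Fintype V] [DecidableEq V] (T : Finset V) : Set (Finset V) :=
  {s | ¬ T ⊆ s ∧ ¬ Tᶜ ⊆ s}

theorem joinBd_sphere {V : Type} [Fintype V] [DecidableEq V] (T : Finset V) (hT : T.Nonempty)
    (m : ℕ) (hV : Fintype.card V = m + 3) (hc : 2 ≤ (Tᶜ).card) : IsPLSphere m (joinBd T) := by
  classical
  obtain ⟨e⟩ : Nonempty (V ↪ ℕ) := ⟨(Fintype.equivFin V).toEmbedding.trans Fin.valEmbedding⟩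
  obtain ⟨u0, hu0⟩ : (Tᶜ).Nonempty := Finset.card_pos.1 (by omega)
  obtain ⟨u1, hu1, hne⟩ : ∃ u1 ∈ Tᶜ, u1 ≠ u0 := Finset.exists_mem_ne (by omega) u0
  have hu0' : u0 ∉ T := Finset.mem_compl.1 hu0
  have hu1' : u1 ∉ T := Finset.mem_compl.1 hu1
  refine ⟨e, ?_⟩
  set S : Finset ℕ := (Finset.univ.erase u0).map e with hS
  have hSc : S.card = m + 2 := by
    rw [hS, Finset.card_map, Finset.card_erase_of_mem (Finset.mem_univ _), Finset.card_univ, hV]
    omega
  have hmemS : ∀ v : V, e v ∈ S ↔ v ≠ u0 := by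
    intro v
    rw [hS, Finset.mem_map' e]
    simp
  have hwS : e u0 ∉ S := fun h => (hmemS u0).1 h rfl
  have hTS : T.map e ⊂ S := by
    rw [Finset.ssubset_iff_of_subset]
    · refine ⟨e u1, (hmemS u1).2 hne, ?_⟩
      rw [Finset.mem_map' e]
      exact hu1'
    · intro x hx
      obtain ⟨v, hv, rfl⟩ := Finset.mem_map.1 hx
      exact (hmemS v).2 (fun h => hu0' (h ▸ hv))
  have h1 := PLSphere.subdivide {s | s ⊂ S} (T.map e) (e u0) (PLSphere.simplex S hSc) hTS
    (hT.map) (by
      intro h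
      have h' : ({e u0} : Finset ℕ) ⊂ S := h
      exact hwS (h'.subset (Finset.mem_singleton_self _)))
  convert h1 using 1
  ext s
  simp only [Set.mem_image, joinBd, Set.mem_ofPred_eq, stellar, Set.mem_union]
  constructor
  · rintro ⟨r, ⟨hr1, hr2⟩, rfl⟩
    have hT' : ¬ T.map e ⊆ r.map e := fun h => hr1 (Finset.map_subset_map.1 h)
    obtain ⟨x, hx, hxr⟩ := Finset.not_subset.1 hr2
    have hxT : x ∉ T := Finset.mem_compl.1 hx
    by_cases hw : u0 ∈ r
    · right
      refine ⟨(Finset.mem_map' e).2 hw, ?_, ?_⟩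
      · intro h
        exact hT' (h.trans (Finset.erase_subset _ _))
      · rw [Finset.ssubset_iff_of_subset]
        · refine ⟨e x, (hmemS x).2 (fun h => hxr (h ▸ hw)), ?_⟩
          intro h
          rcases Finset.mem_union.1 h with h | h
          · exact hxr ((Finset.mem_map' e).1 (Finset.mem_of_mem_erase h))
          · exact hxT ((Finset.mem_map' e).1 h)
        · intro y hy
          rcases Finset.mem_union.1 hy with hy | hy
          · obtain ⟨hy1, hy2⟩ := Finset.mem_erase.1 hy
            obtain ⟨v, hv, rfl⟩ := Finset.mem_map.1 hy2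
            exact (hmemS v).2 (fun h => hy1 (by rw [h]))
          · exact hTS.subset hy
    · left
      refine ⟨?_, hT'⟩
      rw [Finset.ssubset_iff_of_subset]
      · obtain ⟨y, hy, hyr⟩ := Finset.not_subset.1 hr1
        refine ⟨e y, (hmemS y).2 (fun h => hu0' (h ▸ hy)), ?_⟩
        rw [Finset.mem_map' e]
        exact hyr
      · intro y hy
        obtain ⟨v, hv, rfl⟩ := Finset.mem_map.1 hy
        exact (hmemS v).2 (fun h => hw (h ▸ hv))
  · intro h
    have hsub : ∀ y ∈ s, ∃ v, e v = y := by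
      intro y hy
      rcases h with ⟨h1, -⟩ | ⟨-, -, h3⟩
      · have h4 : s ⊂ S := h1
        obtain ⟨v, -, hv⟩ := Finset.mem_map.1 (h4.subset hy)
        exact ⟨v, hv⟩
      · by_cases hyw : y = e u0
        · exact ⟨u0, hyw.symm⟩
        · have h4 : s.erase (e u0) ∪ T.map e ⊂ S := h3
          obtain ⟨v, -, hv⟩ := Finset.mem_map.1 (h4.subset
            (Finset.mem_union_left _ (Finset.mem_erase.2 ⟨hyw, hy⟩)))
          exact ⟨v, hv⟩
    refine ⟨Finset.univ.filter (fun v => e v ∈ s), ?_, ?_⟩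
    · rcases h with ⟨h1, h2⟩ | ⟨h1, h2, h3⟩
      · have h4 : s ⊂ S := h1
        refine ⟨fun h => h2 ?_, fun h => ?_⟩
        · intro y hy
          obtain ⟨v, hv, rfl⟩ := Finset.mem_map.1 hy
          exact (Finset.mem_filter.1 (h hv)).2
        · exact hwS (h4.subset (Finset.mem_filter.1 (h hu0)).2)
      · have h4 : s.erase (e u0) ∪ T.map e ⊂ S := h3
        refine ⟨fun h => h2 ?_, fun h => ?_⟩
        · intro y hy
          obtain ⟨v, hv, rfl⟩ := Finset.mem_map.1 hy
          refine Finset.mem_erase.2 ⟨fun h5 => hu0' (e.injective h5 ▸ hv), ?_⟩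
          exact (Finset.mem_filter.1 (h hv)).2
        · apply h4.2
          intro y hy
          obtain ⟨v, hv, rfl⟩ := Finset.mem_map.1 hy
          have hv0 : v ≠ u0 := (hmemS v).1 hy
          by_cases hvT : v ∈ T
          · exact Finset.mem_union_right _ ((Finset.mem_map' e).2 hvT)
          · apply Finset.mem_union_left
            refine Finset.mem_erase.2 ⟨fun h5 => hv0 (e.injective h5), ?_⟩
            exact (Finset.mem_filter.1 (h (Finset.mem_compl.2 hvT))).2
    · ext y
      constructor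
      · intro hy
        obtain ⟨v, hv, rfl⟩ := Finset.mem_map.1 hy
        exact (Finset.mem_filter.1 hv).2
      · intro hy
        obtain ⟨v, rfl⟩ := hsub y hy
        exact (Finset.mem_map' e).2 (Finset.mem_filter.2 ⟨Finset.mem_univ _, hy⟩)

end Pool.Agent.HP42.MC
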