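import Pool.Agent.HP42.MC.Coord

set_option autoImplicit false

namespace Pool.Agent.HP42.MC

open MvPolynomial

variable {K : Type} [Field K]

/-- The exponents of the monomials `y_3 ^ (n + 2)`, `y_3 ^ (n + 1) y_4`, `y_3 ^ n y_4 ^ 2`. -/
noncomputable def tau (n : ℕ) (k : Fin 3) : Fin 5 →₀ ℕ :=
  Finsupp.single 3 (n + 2 - k.val) + Finsupp.single 4 k.val

/-- The functional of the form `∑ k, y_k y_3 ^ (n + 2 - k) y_4 ^ k`. -/
noncomputable def per (K : Type) [Field K] (n : ℕ) : MvPolynomial (Fin 5) K →ₗ[K] K :=
  ∑ k : Fin 3, lcoeff K (Finsupp.single (Fin.castLE (by omega) k : Fin 5) 1 + tau n k)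

theorem per_apply (n : ℕ) (f : MvPolynomial (Fin 5) K) : per K n f =
    ∑ k : Fin 3, coeff (Finsupp.single (Fin.castLE (by omega) k : Fin 5) 1 + tau n k) f := by
  unfold per
  rw [LinearMap.sum_apply]
  rfl

theorem per_deg (n : ℕ) (k : ℕ) (hk : k ≠ n + 3) (f : MvPolynomial (Fin 5) K)
    (hf : f.IsHomogeneous k) : per K n f = 0 := by
  rw [per_apply]
  apply Finset.sum_eq_zero
  intro i _
  apply hf.coeff_eq_zero
  intro h
  apply hk
  rw [← h]
  unfold tau
  rw [map_add, map_add, Finsupp.degree_single, Finsupp.degree_single, Finsupp.degree_single]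
  have := i.isLt
  omega

theorem per_two (n : ℕ) (a b : Fin 3) (h : MvPolynomial (Fin 5) K) :
    per K n (X (Fin.castLE (by omega) a) * X (Fin.castLE (by omega) b) * h) = 0 := by
  rw [per_apply]
  apply Finset.sum_eq_zero
  intro k _
  have e1 : (X (Fin.castLE (by omega) a) * X (Fin.castLE (by omega) b) :
      MvPolynomial (Fin 5) K) = monomial (Finsupp.single (Fin.castLE (by omega) a) 1 +
        Finsupp.single (Fin.castLE (by omega) b) 1) 1 := by
    rw [X, X, monomial_mul, one_mul]
  rw [e1, coeff_monomial_mul', if_neg]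
  intro hle
  have h0 := hle (Fin.castLE (by omega) a)
  have h1 := hle (Fin.castLE (by omega) b)
  unfold tau at h0 h1
  fin_cases a <;> fin_cases b <;> fin_cases k <;> simp at h0 h1

theorem per_test (n : ℕ) (i j : Fin 3) :
    per K n (X (Fin.castLE (by omega) i) * monomial (tau n j) 1) = if i = j then 1 else 0 := by
  rw [per_apply]
  have e1 : (X (Fin.castLE (by omega) i) * monomial (tau n j) 1 : MvPolynomial (Fin 5) K) =
      monomial (Finsupp.single (Fin.castLE (by omega) i) 1 + tau n j) 1 := by
    rw [X, monomial_mul, one_mul]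
  rw [e1]
  simp only [coeff_monomial]
  have key : ∀ k : Fin 3, (Finsupp.single (Fin.castLE (by omega) i : Fin 5) 1 + tau n j =
      Finsupp.single (Fin.castLE (by omega) k : Fin 5) 1 + tau n k) ↔ (i = k ∧ j = k) := by
    intro k
    constructor
    · intro h
      have h4 := DFunLike.congr_fun h 4
      have h0 := DFunLike.congr_fun h (Fin.castLE (by omega) i : Fin 5)
      unfold tau at h4 h0
      fin_cases i <;> fin_cases j <;> fin_cases k <;> simp at h4 h0 <;> simp
    · rintro ⟨rfl, rfl⟩
      rfl
  simp only [key]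
  by_cases hij : i = j
  · subst hij
    rw [if_pos rfl, Finset.sum_eq_single i]
    · simp
    · intro k _ hk
      rw [if_neg]
      intro h
      exact hk h.1.symm
    · intro h
      exact absurd (Finset.mem_univ i) h
  · rw [if_neg hij]
    apply Finset.sum_eq_zero
    intro k _
    rw [if_neg]
    intro h
    exact hij (h.1.trans h.2.symm)

theorem per_not_lefschetz {V : Type} [Fintype V] (n : ℕ) (E : V → Fin 5 → K)
    (hs : ∀ y : Fin 5 → K, ∃ c : V → K, ∀ i, ∑ v, c v * E v i = y i) :
    ¬ Lefschetz (n + 3) (annIdeal ((per K n).comp (sub E).toLinearMap)) := by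
  rintro ⟨l, hl, hk⟩
  obtain ⟨hinj, -⟩ := hk 1 (by omega)
  set Λ : MvPolynomial (Fin 5) K := sub E l ^ (n + 3 - 2 * 1) with hΛ
  have hΛh : Λ.IsHomogeneous (n + 1) := by
    have := (sub_hom E hl).pow (n + 3 - 2 * 1)
    rw [one_mul] at this
    exact this
  -- a nontrivial solution of two equations
  let M : (Fin 3 → K) →ₗ[K] (Fin 2 → K) := Matrix.toLin' (Matrix.of fun (b : Fin 2) (i : Fin 3) =>
    per K n (Λ * X (Fin.castLE (by omega) i) * X (Fin.natAdd 3 b)))
  obtain ⟨a, haM, ha0⟩ : ∃ a, M a = 0 ∧ a ≠ 0 := by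
    have : LinearMap.ker M ≠ ⊥ := LinearMap.ker_ne_bot_of_finrank_lt (by simp)
    obtain ⟨a, ha, ha0⟩ := Submodule.exists_mem_ne_zero_of_ne_bot this
    exact ⟨a, LinearMap.mem_ker.1 ha, ha0⟩
  obtain ⟨f, hf1, hf⟩ := sub_lin hs (fun i : Fin 5 => if h : i.val < 3 then a ⟨i.val, h⟩ else 0)
  have hf' : sub E f = ∑ i : Fin 3, C (a i) * X (Fin.castLE (by omega) i) := by
    rw [hf, Fin.sum_univ_five, Fin.sum_univ_three]
    simp
  have hM : ∀ b : Fin 2, ∑ i : Fin 3, a i *
      per K n (Λ * X (Fin.castLE (by omega) i) * X (Fin.natAdd 3 b)) = 0 := by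
    intro b
    have := congrFun haM b
    simp only [M, Matrix.toLin'_apply, Matrix.mulVec, dotProduct, Matrix.of_apply,
      Pi.zero_apply] at this
    rw [← this]
    exact Finset.sum_congr rfl fun i _ => mul_comm _ _
  have hmem : l ^ (n + 3 - 2 * 1) * f ∈ annIdeal ((per K n).comp (sub E).toLinearMap) := by
    intro g
    change per K n (sub E (l ^ (n + 3 - 2 * 1) * f * g)) = 0
    rw [map_mul (sub E), map_mul (sub E), map_pow (sub E), ← hΛ]
    generalize sub E g = h
    have hαh : (sub E f).IsHomogeneous 1 := sub_hom E hf1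
    induction h using MvPolynomial.induction_on' with
    | monomial e c =>
      by_cases he : e.degree = 1
      · obtain ⟨b, rfl⟩ : ∃ b, e = Finsupp.single b 1 := by
          have h1 : e ∈ {d : Fin 5 →₀ ℕ | d.degree = 1} := he
          rw [← Finsupp.range_single_one] at h1
          obtain ⟨b, hb⟩ := h1
          exact ⟨b, hb.symm⟩
        have e1 : (monomial (Finsupp.single b 1) c : MvPolynomial (Fin 5) K) = c • X b := by
          rw [X, smul_monomial, smul_eq_mul, mul_one]
        rw [e1, mul_smul_comm, map_smul, hf', Finset.mul_sum, Finset.sum_mul, map_sum]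
        have e2 : ∀ i : Fin 3, per K n (Λ * (C (a i) * X (Fin.castLE (by omega) i)) * X b) =
            a i * per K n (Λ * X (Fin.castLE (by omega) i) * X b) := by
          intro i
          have : Λ * (C (a i) * X (Fin.castLE (by omega) i)) * X b =
              a i • (Λ * X (Fin.castLE (by omega) i) * X b) := by
            rw [smul_eq_C_mul]; ring
          rw [this, map_smul, smul_eq_mul]
        simp only [e2]
        by_cases hb : b.val < 3
        · have hb' : b = Fin.castLE (by omega) (⟨b.val, hb⟩ : Fin 3) := by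
            ext; rfl
          rw [Finset.sum_eq_zero, smul_zero]
          intro i _
          have : Λ * X (Fin.castLE (by omega) i) * X b =
              X (Fin.castLE (by omega) i) * X (Fin.castLE (by omega) (⟨b.val, hb⟩ : Fin 3)) * Λ := by
            rw [← hb']; ring
          rw [this, per_two, mul_zero]
        · have hb' : b = Fin.natAdd 3 (⟨b.val - 3, by have := b.isLt; omega⟩ : Fin 2) := by
            ext
            simp only [Fin.val_natAdd]
            omega
          rw [hb', hM, smul_zero]
      · have h1 : (Λ * sub E f * monomial e c).IsHomogeneous (n + 1 + 1 + e.degree) :=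
          (hΛh.mul hαh).mul (isHomogeneous_monomial _ rfl)
        exact per_deg n _ (by omega) _ h1
    | add p q hp hq => rw [mul_add, map_add, hp, hq, add_zero]
  have hcon := hinj f hf1 hmem
  apply ha0
  ext j
  obtain ⟨g, hg⟩ := sub_surj hs (monomial (tau n j) (1 : K))
  have h1 := hcon g
  change per K n (sub E (f * g)) = 0 at h1
  rw [map_mul (sub E), hg, hf', Finset.sum_mul, map_sum] at h1
  have e2 : ∀ i : Fin 3, per K n (C (a i) * X (Fin.castLE (by omega) i) * monomial (tau n j) 1) =
      a i * if i = j then 1 else 0 := by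
    intro i
    rw [mul_assoc, ← smul_eq_C_mul, map_smul, per_test, smul_eq_mul]
  simp only [e2] at h1
  rw [Pi.zero_apply, ← h1, Finset.sum_eq_single j]
  · simp
  · intro i _ hij
    rw [if_neg hij, mul_zero]
  · intro h
    exact absurd (Finset.mem_univ j) h

theorem per_ne_zero (n : ℕ) : per K n ≠ 0 := by
  intro h
  have := per_test (K := K) n 0 0
  rw [h] at this
  simp at this

end Pool.Agent.HP42.MC
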