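import Pool.Agent.HP42.MC.PL
import Pool.Agent.HP42.MC.Alg

set_option autoImplicit false

namespace Pool.Agent.HP42.MC

open MvPolynomial

variable {K : Type} [Field K] {V : Type} [Fintype V]

theorem one_notMem (d : ℕ) (D : Set (Finset V)) (t : V → K) (hD : ∅ ∈ D) :
    (1 : MvPolynomial V K) ∉ momentIdeal d D t := by
  have hle : momentIdeal d D t ≤ RingHom.ker (constantCoeff : MvPolynomial V K →+* K) := by
    unfold momentIdeal faceIdeal
    rw [sup_le_iff, Ideal.span_le, Ideal.span_le]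
    constructor
    · rintro m ⟨s, hs, rfl⟩
      have hne : s.Nonempty := by
        rw [Finset.nonempty_iff_ne_empty]
        rintro rfl
        exact hs hD
      obtain ⟨v, hv⟩ := hne
      change constantCoeff (∏ v ∈ s, (X v : MvPolynomial V K)) = 0
      rw [map_prod]
      exact Finset.prod_eq_zero hv (constantCoeff_X _ _)
    · rintro m ⟨j, rfl⟩
      change constantCoeff (theta t (j.val + 1)) = 0
      unfold theta
      rw [map_sum]
      apply Finset.sum_eq_zero
      intro v _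
      rw [map_mul, constantCoeff_X, mul_zero]
  intro h
  have := hle h
  rw [RingHom.mem_ker, map_one] at this
  exact one_ne_zero this

omit [Fintype V] in
theorem linear_pow {p e : ℕ} [hp : Fact p.Prime] [CharP K p] (J : Ideal (MvPolynomial V K))
    (h : ∀ v, (X v : MvPolynomial V K) ^ p ^ e ∈ J) (l : MvPolynomial V K)
    (hl : l.IsHomogeneous 1) : l ^ p ^ e ∈ J := by
  have h' : l ∈ homogeneousSubmodule V K 1 := hl
  rw [homogeneousSubmodule_one_eq_span_X] at h'
  clear hl
  induction h' using Submodule.span_induction with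
  | mem x hx => obtain ⟨a, rfl⟩ := hx; exact h a
  | zero =>
    rw [zero_pow (pow_ne_zero _ hp.out.ne_zero)]
    exact J.zero_mem
  | add x y _ _ hx hy =>
    rw [add_pow_char_pow]
    exact J.add_mem hx hy
  | smul a x _ hx =>
    rw [smul_eq_C_mul, mul_pow]
    exact J.mul_mem_left _ hx

theorem not_lefschetz_of_pow (d : ℕ) (D : Set (Finset V)) (t : V → K) (hD : ∅ ∈ D)
    (h : ∀ l : MvPolynomial V K, l.IsHomogeneous 1 → l ^ d ∈ momentIdeal d D t) :
    ¬ Lefschetz d (momentIdeal d D t) := by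
  rintro ⟨l, hl, hk⟩
  have h0 := (hk 0 (by omega)).1 1 (isHomogeneous_one V K) (by
    rw [mul_zero, Nat.sub_zero, mul_one]
    exact h l hl)
  exact one_notMem d D t hD h0

theorem core {A : Type} [CommRing A] [Algebra K A] [DecidableEq V] {p e : ℕ}
    [hp : Fact p.Prime] [CharP K p]
    (hV : Fintype.card V = p ^ e + 2) (o z w : V) (hoz : o ≠ z) (how : o ≠ w) (hzw : z ≠ w)
    (ρ : V → K) (hz : ρ z = 0) (hw : ρ w = 1)
    (h1 : ∏ v ∈ ({o, z, w} : Finset V)ᶜ, (1 - ρ v) = 1)
    (h0 : ∏ v ∈ ({o, z, w} : Finset V)ᶜ, (- ρ v) = 1)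
    (a c : K) (hac : a ≠ c) (hc : ∀ v, v ≠ o → ρ v ≠ c)
    (t : V → K) (ht : Function.Injective t) (ht0 : ∀ v, t v ≠ 0) (hto : t o = 1)
    (htv : ∀ v, v ≠ o → t v = (ρ v - a) / (ρ v - c)) (x : V → A)
    (hrel : ∀ j : Fin (p ^ e), ∑ v, t v ^ (j.val + 1) • x v = 0)
    (hf1 : ∏ v ∈ ({o, z, w} : Finset V), x v = 0)
    (hf2 : ∏ v ∈ ({o, z, w} : Finset V)ᶜ, x v = 0) (v : V) :
    x v ^ p ^ e = 0 := by
  set T : Finset V := {o, z, w} with hT
  have hTc : T.card = 3 := by
    rw [hT, Finset.card_insert_of_notMem, Finset.card_insert_of_notMem, Finset.card_singleton]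
    · simpa using hzw
    · simp [hoz, how]
  set n : V → K := fun v => t v * ∏ u ∈ Finset.univ.erase v, (t v - t u) with hn
  have hn0 : ∀ v, n v ≠ 0 := by
    intro v
    refine mul_ne_zero (ht0 v) (Finset.prod_ne_zero_iff.2 ?_)
    intro u hu
    exact sub_ne_zero.2 (fun h => (Finset.mem_erase.1 hu).1 (ht h).symm)
  have hc0 : c ≠ 0 := fun h => hc z (Ne.symm hoz) (by rw [hz, h])
  have htz : t z = a / c := by
    rw [htv z (Ne.symm hoz), hz, zero_sub, zero_sub, neg_div_neg_eq]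
  obtain ⟨Z, hZ⟩ : ∃ Z, Z = n o • x o := ⟨_, rfl⟩
  obtain ⟨Xx, hXx⟩ : ∃ Xx, Xx = c • (n z • x z) := ⟨_, rfl⟩
  have hca : c - a ≠ 0 := sub_ne_zero.2 (Ne.symm hac)
  have main : ∀ v, v ≠ o → ((c - ρ v) * n v) • x v = Xx - ρ v • Z := by
    intro v hv
    have h3 := three_term (p ^ e) hV t x hrel o z v hoz
    have h3' : (t o - t z) • (n v • x v) = (t v - t z) • (n o • x o) - (t v - t o) • (n z • x z) :=
      h3
    have hr : ρ v - c ≠ 0 := sub_ne_zero.2 (hc v hv)
    have e1 : ((c - ρ v) * c / (c - a)) * (t o - t z) = (c - ρ v) := by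
      rw [hto, htz]; field_simp
    have e2 : ((c - ρ v) * c / (c - a)) * (t v - t z) = - ρ v := by
      rw [htz, htv v hv]; field_simp; ring
    have e3 : ((c - ρ v) * c / (c - a)) * (t v - t o) = - c := by
      rw [hto, htv v hv]; field_simp; ring
    calc ((c - ρ v) * n v) • x v
        = ((c - ρ v) * c / (c - a)) • ((t o - t z) • (n v • x v)) := by
          rw [smul_smul, smul_smul, e1]
      _ = Xx - ρ v • Z := by
          rw [h3', smul_sub, smul_smul _ (t v - t z), e2, smul_smul _ (t v - t o), e3, neg_smul,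
            neg_smul, hXx, hZ]
          abel
  have hXZ : Xx * Z * (Xx - Z) = 0 := by
    have e1 := main w (Ne.symm how)
    rw [hw, one_smul] at e1
    rw [← e1, hXx, hZ]
    have e2 : c • n z • x z * n o • x o * ((c - 1) * n w) • x w =
        (c * n z * n o * ((c - 1) * n w)) • (∏ v ∈ T, x v) := by
      rw [hT, Finset.prod_insert, Finset.prod_insert, Finset.prod_singleton]
      · simp only [Algebra.smul_def, map_mul]
        ring
      · simpa using hzw
      · simp [hoz, how]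
    rw [e2, hf1, smul_zero]
  have hprod : ∏ v ∈ Tᶜ, (Xx - ρ v • Z) = 0 := by
    have e1 : ∏ v ∈ Tᶜ, (Xx - ρ v • Z) =
        algebraMap K _ (∏ v ∈ Tᶜ, ((c - ρ v) * n v)) * ∏ v ∈ Tᶜ, x v := by
      rw [map_prod, ← Finset.prod_mul_distrib]
      apply Finset.prod_congr rfl
      intro v hv
      rw [← main v, Algebra.smul_def]
      rintro rfl
      exact Finset.mem_compl.1 hv (by rw [hT]; simp)
    rw [e1, hf2, mul_zero]
  have hUc : (Tᶜ).card + 1 = p ^ e := by
    rw [Finset.card_compl, hTc, hV]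
    have : 0 < p ^ e := pow_pos hp.out.pos e
    have h3 : 3 ≤ Fintype.card V := by
      rw [← hTc, ← Finset.card_univ]
      exact Finset.card_le_card (Finset.subset_univ _)
    omega
  obtain ⟨hX0, hZ0⟩ := powers_zero hXZ ρ Tᶜ hprod h1 h0
  rw [hUc] at hX0 hZ0
  rcases subsingleton_or_nontrivial A with hs | hs
  · exact Subsingleton.elim _ _
  have : CharP A p := charP_of_injective_algebraMap (algebraMap K A).injective p
  by_cases hv : v = o
  · subst hv
    have e1 : x v = (n v)⁻¹ • Z := by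
      rw [hZ, smul_smul, inv_mul_cancel₀ (hn0 v), one_smul]
    rw [e1, smul_pow, hZ0, smul_zero]
  · have hcv : (c - ρ v) * n v ≠ 0 :=
      mul_ne_zero (sub_ne_zero.2 (Ne.symm (hc v hv))) (hn0 v)
    have e1 : x v = ((c - ρ v) * n v)⁻¹ • (Xx - ρ v • Z) := by
      rw [← main v hv, smul_smul, inv_mul_cancel₀ hcv, one_smul]
    rw [e1, smul_pow, sub_pow_char_pow, smul_pow, hX0, hZ0]
    simp

theorem X_pow_mem [DecidableEq V] {p e : ℕ} [hp : Fact p.Prime] [CharP K p]
    (hV : Fintype.card V = p ^ e + 2) (o z w : V) (hoz : o ≠ z) (how : o ≠ w) (hzw : z ≠ w)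
    (ρ : V → K) (hz : ρ z = 0) (hw : ρ w = 1)
    (h1 : ∏ v ∈ ({o, z, w} : Finset V)ᶜ, (1 - ρ v) = 1)
    (h0 : ∏ v ∈ ({o, z, w} : Finset V)ᶜ, (- ρ v) = 1)
    (a c : K) (hac : a ≠ c) (hc : ∀ v, v ≠ o → ρ v ≠ c)
    (t : V → K) (ht : Function.Injective t) (ht0 : ∀ v, t v ≠ 0) (hto : t o = 1)
    (htv : ∀ v, v ≠ o → t v = (ρ v - a) / (ρ v - c)) (v : V) :
    (X v : MvPolynomial V K) ^ p ^ e ∈ momentIdeal (p ^ e) (joinBd ({o, z, w} : Finset V)) t := by
  classical
  set J := momentIdeal (p ^ e) (joinBd ({o, z, w} : Finset V)) t with hJ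
  have hface : ∀ s : Finset V, s ∉ joinBd ({o, z, w} : Finset V) →
      ∏ v ∈ s, Ideal.Quotient.mk J (X v) = 0 := by
    intro s hs
    rw [← map_prod]
    exact Ideal.Quotient.eq_zero_iff_mem.2 (Ideal.mem_sup_left (Ideal.subset_span ⟨s, hs, rfl⟩))
  have h := core (A := MvPolynomial V K ⧸ J) hV o z w hoz how hzw ρ hz hw h1 h0 a c hac hc t ht
    ht0 hto htv (fun v => Ideal.Quotient.mk J (X v)) (by
      intro j
      have h2 : theta t (j.val + 1) ∈ J :=
        Ideal.mem_sup_right (Ideal.subset_span ⟨j, rfl⟩)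
      have h3 := Ideal.Quotient.eq_zero_iff_mem.2 h2
      unfold theta at h3
      rw [map_sum] at h3
      rw [← h3]
      apply Finset.sum_congr rfl
      intro v _
      rw [map_mul, Algebra.smul_def]
      rfl) (hface _ (fun h => h.1 (Finset.Subset.refl _)))
    (hface _ (fun h => h.2 (Finset.Subset.refl _))) v
  rw [← Ideal.Quotient.eq_zero_iff_mem, map_pow]
  exact h

end Pool.Agent.HP42.MC
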