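import Pool.Agent.HP42.MC.Sphere
import Pool.Agent.HP42.MC.Blocks

set_option autoImplicit false

namespace Pool.Agent.HP42.MC

open MvPolynomial

theorem sphere_main (K : Type) [Field K] [Infinite K] (p : ℕ) [hp : Fact p.Prime] [CharP K p] :
    ∃ (T : Finset (Fin (p ^ 2 + 2))) (t : Fin (p ^ 2 + 2) → K), T.card = 3 ∧
      Function.Injective t ∧ (∀ v, t v ≠ 0) ∧
      ∀ l : MvPolynomial (Fin (p ^ 2 + 2)) K, l.IsHomogeneous 1 →
        l ^ p ^ 2 ∈ momentIdeal (p ^ 2) (joinBd T) t := by
  classical
  obtain ⟨R, hRc, hRd, hR1, hR2⟩ := exists_block (K := K) p ({0, 1} : Finset K)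
  have h0R : (0 : K) ∉ R := fun h => Finset.disjoint_left.1 hRd h (by simp)
  have h1R : (1 : K) ∉ R := fun h => Finset.disjoint_left.1 hRd h (by simp)
  have hp2 : 4 ≤ p ^ 2 := by nlinarith [hp.out.two_le]
  set R' : Finset K := insert 0 (insert 1 R) with hR'
  have hR'c : R'.card = p ^ 2 + 1 := by
    rw [hR', Finset.card_insert_of_notMem, Finset.card_insert_of_notMem h1R, hRc]
    · omega
    · simp only [Finset.mem_insert, not_or]
      exact ⟨zero_ne_one, h0R⟩
  have hcard : Fintype.card (Fin (p ^ 2 + 2)) = Fintype.card (Option {x // x ∈ R'}) := by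
    rw [Fintype.card_fin, Fintype.card_option, Fintype.card_coe, hR'c]
  set e := Fintype.equivOfCardEq hcard with he
  set ρ : Fin (p ^ 2 + 2) → K := fun v => ((e v).elim 0 Subtype.val) with hρ
  have m0 : (0 : K) ∈ R' := by rw [hR']; simp
  have m1 : (1 : K) ∈ R' := by rw [hR']; simp
  set o := e.symm none with ho
  set z := e.symm (some ⟨0, m0⟩) with hz
  set w := e.symm (some ⟨1, m1⟩) with hw
  have hoz : o ≠ z := by
    intro h
    have := e.symm.injective h
    simp at this
  have how : o ≠ w := by
    intro h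
    have := e.symm.injective h
    simp at this
  have hzw : z ≠ w := by
    intro h
    have := e.symm.injective h
    simp at this
  have hρz : ρ z = 0 := by rw [hρ, hz]; simp
  have hρw : ρ w = 1 := by rw [hρ, hw]; simp
  have hsome : ∀ v, v ≠ o → ∃ x : {x // x ∈ R'}, v = e.symm (some x) ∧ ρ v = x.1 := by
    intro v hv
    rcases h : e v with _ | x
    · exact absurd (by rw [ho, ← h, Equiv.symm_apply_apply]) hv
    · refine ⟨x, by rw [← h, Equiv.symm_apply_apply], ?_⟩
      rw [hρ]
      simp only [h, Option.elim_some]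
  have hρmem : ∀ v, v ≠ o → ρ v ∈ R' := by
    intro v hv
    obtain ⟨x, -, hx⟩ := hsome v hv
    rw [hx]
    exact x.2
  have hρinj : ∀ u v, u ≠ o → v ≠ o → ρ u = ρ v → u = v := by
    intro u v hu hv h
    obtain ⟨x, hx1, hx2⟩ := hsome u hu
    obtain ⟨y, hy1, hy2⟩ := hsome v hv
    have : x = y := Subtype.ext (by rw [← hx2, ← hy2, h])
    rw [hx1, hy1, this]
  have hprod : ∀ f : K → K, ∏ v ∈ ({o, z, w} : Finset (Fin (p ^ 2 + 2)))ᶜ, f (ρ v) =
      ∏ x ∈ R, f x := by
    intro f
    refine Finset.prod_bij (fun v _ => ρ v) ?_ ?_ ?_ ?_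
    · intro v hv
      have hv' := Finset.mem_compl.1 hv
      simp only [Finset.mem_insert, Finset.mem_singleton, not_or] at hv'
      have h1 := hρmem v hv'.1
      rw [hR'] at h1
      simp only [Finset.mem_insert] at h1
      rcases h1 with h1 | h1 | h1
      · exact absurd (hρinj v z hv'.1 (Ne.symm hoz) (by rw [h1, hρz])) hv'.2.1
      · exact absurd (hρinj v w hv'.1 (Ne.symm how) (by rw [h1, hρw])) hv'.2.2
      · exact h1
    · intro u hu v hv h
      have hu' := Finset.mem_compl.1 hu
      have hv' := Finset.mem_compl.1 hv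
      simp only [Finset.mem_insert, Finset.mem_singleton, not_or] at hu' hv'
      exact hρinj u v hu'.1 hv'.1 h
    · intro x hx
      have hxR' : x ∈ R' := by rw [hR']; simp [hx]
      refine ⟨e.symm (some ⟨x, hxR'⟩), ?_, ?_⟩
      · rw [Finset.mem_compl]
        simp only [Finset.mem_insert, Finset.mem_singleton, not_or]
        refine ⟨?_, ?_, ?_⟩
        · intro h
          have := e.symm.injective h
          simp at this
        · intro h
          have := e.symm.injective h
          simp only [Option.some.injEq, Subtype.mk.injEq] at this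
          exact h0R (this ▸ hx)
        · intro h
          have := e.symm.injective h
          simp only [Option.some.injEq, Subtype.mk.injEq] at this
          exact h1R (this ▸ hx)
      · rw [hρ]; simp
    · intro v _
      rfl
  obtain ⟨c, hc⟩ := Infinite.exists_notMem_finset R'
  obtain ⟨a, ha⟩ := Infinite.exists_notMem_finset (insert c R')
  rw [Finset.mem_insert, not_or] at ha
  obtain ⟨hac, haR⟩ := ha
  have hca : c - a ≠ 0 := sub_ne_zero.2 (Ne.symm hac)
  have hρc : ∀ v, v ≠ o → ρ v ≠ c := fun v hv h => hc (h ▸ hρmem v hv)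
  have hρa : ∀ v, v ≠ o → ρ v ≠ a := fun v hv h => haR (h ▸ hρmem v hv)
  set t : Fin (p ^ 2 + 2) → K := fun v => if v = o then 1 else (ρ v - a) / (ρ v - c) with ht
  have hto : t o = 1 := by rw [ht]; simp
  have htv : ∀ v, v ≠ o → t v = (ρ v - a) / (ρ v - c) := by
    intro v hv
    rw [ht]
    simp only [if_neg hv]
  have ht0 : ∀ v, t v ≠ 0 := by
    intro v
    by_cases hv : v = o
    · rw [hv, hto]; exact one_ne_zero
    · rw [htv v hv]
      exact div_ne_zero (sub_ne_zero.2 (hρa v hv)) (sub_ne_zero.2 (hρc v hv))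
  have ht1 : ∀ v, v ≠ o → t v ≠ 1 := by
    intro v hv h
    rw [htv v hv, div_eq_one_iff_eq (sub_ne_zero.2 (hρc v hv))] at h
    exact hca (by linear_combination h)
  have htinj : Function.Injective t := by
    intro u v huv
    by_cases hu : u = o
    · by_cases hv : v = o
      · rw [hu, hv]
      · rw [hu, hto] at huv
        exact absurd huv.symm (ht1 v hv)
    · by_cases hv : v = o
      · rw [hv, hto] at huv
        exact absurd huv (ht1 u hu)
      · apply hρinj u v hu hv
        rw [htv u hu, htv v hv, div_eq_div_iff (sub_ne_zero.2 (hρc u hu))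
          (sub_ne_zero.2 (hρc v hv))] at huv
        have : (c - a) * (ρ u - ρ v) = 0 := by linear_combination -huv
        rcases mul_eq_zero.1 this with h | h
        · exact absurd h hca
        · exact sub_eq_zero.1 h
  refine ⟨{o, z, w}, t, ?_, htinj, ht0, ?_⟩
  · rw [Finset.card_insert_of_notMem, Finset.card_insert_of_notMem, Finset.card_singleton]
    · simpa using hzw
    · simp [hoz, how]
  · have hneg : ∏ v ∈ ({o, z, w} : Finset (Fin (p ^ 2 + 2)))ᶜ, (- ρ v) = 1 := by
      rw [hprod (fun x => -x), Finset.prod_neg, hR1, hRc, mul_one]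
      rcases hp.out.eq_two_or_odd' with h | h
      · have h2 : (2 : K) = 0 := by
          have := CharP.cast_eq_zero K p
          rw [h] at this
          simpa using this
        have h1 : (-1 : K) = 1 := by linear_combination -h2
        rw [h1, one_pow]
      · have h1 : Odd (p ^ 2) := h.pow
        have h2 : Even (p ^ 2 - 1) := by
          obtain ⟨k, hk⟩ := h1
          rw [Nat.even_iff]
          omega
        exact h2.neg_one_pow
    exact linear_pow _ (fun v => X_pow_mem (by rw [Fintype.card_fin]) o z w hoz how hzw ρ hρz hρw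
      (by rw [hprod (fun x => 1 - x), hR2]) hneg a c hac hρc t htinj ht0 hto htv v)

end Pool.Agent.HP42.MC
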