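import Pool.Agent.HP42.MC.Defs

set_option autoImplicit false

namespace Pool.Agent.HP42.MC

variable {K : Type} [Field K] {V : Type} [LinearOrder V]

/-- the product of the differences -/
noncomputable def wd (t : V → K) (F : Finset V) : K :=
  ∏ v ∈ F, ∏ u ∈ F.filter (· < v), (t v - t u)

theorem prod_orderEmb {M : Type} [CommMonoid M] (F : Finset V) (f : V → M) :
    ∏ i : Fin F.card, f (F.orderEmbOfFin rfl i) = ∏ v ∈ F, f v := by
  refine Finset.prod_bij (fun i _ => F.orderEmbOfFin rfl i) ?_ ?_ ?_ ?_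
  · intro i _
    exact F.orderEmbOfFin_mem rfl i
  · intro i _ j _ h
    exact (F.orderEmbOfFin rfl).injective h
  · intro v hv
    have : v ∈ Set.range (F.orderEmbOfFin rfl) := by
      rw [Finset.range_orderEmbOfFin]
      exact hv
    obtain ⟨i, hi⟩ := this
    exact ⟨i, Finset.mem_univ _, hi⟩
  · intro i _
    rfl

theorem vol_eq (t : V → K) (F : Finset V) : vol t F = (∏ v ∈ F, t v) * wd t F := by
  have e1 : vol t F = (Matrix.of fun i j : Fin F.card => t (F.orderEmbOfFin rfl i) *
      (Matrix.vandermonde (fun i => t (F.orderEmbOfFin rfl i))) i j).det := by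
    unfold vol
    congr 1
    ext i j
    simp only [Matrix.of_apply, Matrix.vandermonde_apply]
    rw [pow_succ, mul_comm]
  rw [e1, Matrix.det_mul_column, Matrix.det_vandermonde, prod_orderEmb F t]
  congr 1
  unfold wd
  have e2 : ∏ i : Fin F.card, ∏ j ∈ Finset.Ioi i,
      (t (F.orderEmbOfFin rfl j) - t (F.orderEmbOfFin rfl i)) =
      ∏ j : Fin F.card, ∏ i ∈ Finset.Iio j,
        (t (F.orderEmbOfFin rfl j) - t (F.orderEmbOfFin rfl i)) := by
    apply Finset.prod_comm'
    intro x y
    simp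
  rw [e2, ← prod_orderEmb F (fun v => ∏ u ∈ F.filter (· < v), (t v - t u))]
  apply Finset.prod_congr rfl
  intro j _
  refine Finset.prod_bij (fun i _ => F.orderEmbOfFin rfl i) ?_ ?_ ?_ ?_
  · intro i hi
    rw [Finset.mem_filter]
    exact ⟨F.orderEmbOfFin_mem rfl i, (F.orderEmbOfFin rfl).lt_iff_lt.2 (Finset.mem_Iio.1 hi)⟩
  · intro i _ i' _ h
    exact (F.orderEmbOfFin rfl).injective h
  · intro v hv
    obtain ⟨hv1, hv2⟩ := Finset.mem_filter.1 hv
    have : v ∈ Set.range (F.orderEmbOfFin rfl) := by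
      rw [Finset.range_orderEmbOfFin]
      exact hv1
    obtain ⟨i, rfl⟩ := this
    exact ⟨i, Finset.mem_Iio.2 ((F.orderEmbOfFin rfl).lt_iff_lt.1 hv2), rfl⟩
  · intro i _
    rfl

theorem wd_insert (t : V → K) (G : Finset V) (v : V) (hv : v ∉ G) :
    (-1 : K) ^ (G.filter (· < v)).card * wd t (insert v G) = wd t G * ∏ g ∈ G, (t g - t v) := by
  unfold wd
  rw [Finset.prod_insert hv]
  have e1 : (insert v G).filter (· < v) = G.filter (· < v) := by
    rw [Finset.filter_insert, if_neg (lt_irrefl v)]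
  rw [e1]
  have e2 : ∏ w ∈ G, ∏ u ∈ (insert v G).filter (· < w), (t w - t u) =
      (∏ w ∈ G, ∏ u ∈ G.filter (· < w), (t w - t u)) * ∏ w ∈ G.filter (fun w => v < w),
        (t w - t v) := by
    rw [Finset.prod_filter, ← Finset.prod_mul_distrib]
    apply Finset.prod_congr rfl
    intro w _
    rw [Finset.filter_insert]
    by_cases h : v < w
    · rw [if_pos h, if_pos h, Finset.prod_insert, mul_comm]
      intro h'
      exact hv (Finset.mem_filter.1 h').1
    · rw [if_neg h, if_neg h, mul_one]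
  rw [e2]
  have e3 : (-1 : K) ^ (G.filter (· < v)).card * ∏ u ∈ G.filter (· < v), (t v - t u) =
      ∏ u ∈ G.filter (· < v), (t u - t v) := by
    rw [← Finset.prod_const, ← Finset.prod_mul_distrib]
    apply Finset.prod_congr rfl
    intro u _
    ring
  have e4 : ∏ g ∈ G, (t g - t v) = (∏ u ∈ G.filter (· < v), (t u - t v)) *
      ∏ w ∈ G.filter (fun w => v < w), (t w - t v) := by
    rw [← Finset.prod_filter_mul_prod_filter_not G (· < v)]
    congr 2
    apply Finset.filter_congr
    intro w hw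
    constructor
    · intro h
      exact lt_of_le_of_ne (not_lt.1 h) (fun h' => hv (h' ▸ hw))
    · intro h
      exact not_lt.2 h.le
  rw [e4, ← e3]
  ring

theorem vol_insert (t : V → K) (G : Finset V) (v : V) (hv : v ∉ G) :
    (-1 : K) ^ (G.filter (· < v)).card * vol t (insert v G) =
      vol t G * (t v * ∏ g ∈ G, (t g - t v)) := by
  rw [vol_eq, vol_eq, Finset.prod_insert hv]
  have := wd_insert t G v hv
  linear_combination (t v * ∏ x ∈ G, t x) * this

theorem vol_ne_zero (t : V → K) (ht : Function.Injective t) (ht0 : ∀ v, t v ≠ 0) (F : Finset V) :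
    vol t F ≠ 0 := by
  rw [vol_eq]
  refine mul_ne_zero (Finset.prod_ne_zero_iff.2 fun v _ => ht0 v) ?_
  unfold wd
  refine Finset.prod_ne_zero_iff.2 fun v _ => Finset.prod_ne_zero_iff.2 fun u hu => ?_
  exact sub_ne_zero.2 (fun h => (Finset.mem_filter.1 hu).2.ne (ht h).symm)

end Pool.Agent.HP42.MC
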